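import Pool.Agent.K1H65.CL.Defs

/-! Boundedness, uniform continuity, renaming of variables, infima over tuples. -/

set_option autoImplicit false

universe w u

namespace Pool.Agent.K1H65.CL

variable {L : Signature.{w}}

/-- Renaming of the variables of a term. -/
def Term.relabel {V V' : Type u} (g : V → V') : Term L V → Term L V'
  | .var x => .var (g x)
  | .app f ts => .app f fun i => (ts i).relabel g

lemma Term.eval_relabel (M : Str.{w, u} L) {V V' : Type u} (g : V → V') (t : Term L V)
    (v : V' → M) : (t.relabel g).eval M v = t.eval M (v ∘ g) := by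
  induction t with
  | var x => rfl
  | app f ts ih => simp only [Term.relabel, Term.eval, ih]

/-- Renaming of the free variables of a formula. -/
def Formula.relabel : {V V' : Type u} → (V → V') → Formula L V → Formula L V'
  | _, _, g, .dist s t => .dist (s.relabel g) (t.relabel g)
  | _, _, g, .rel R ts => .rel R fun i => (ts i).relabel g
  | _, _, g, .conn c φ => .conn c fun i => (φ i).relabel g
  | _, _, g, .sup φ => .sup (φ.relabel (Option.map g))
  | _, _, g, .inf φ => .inf (φ.relabel (Option.map g))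

lemma elim_comp_map {V V' : Type u} {M : Type u} (g : V → V') (x : M) (v : V' → M) :
    (fun o : Option V' => o.elim x v) ∘ Option.map g = fun o => o.elim x (v ∘ g) := by
  funext o
  cases o <;> rfl

lemma Formula.eval_relabel (M : Str.{w, u} L) {V : Type u} (φ : Formula L V) :
    ∀ {V' : Type u} (g : V → V') (v : V' → M), (φ.relabel g).eval M v = φ.eval M (v ∘ g) := by
  induction φ with
  | dist s t => intro V' g v; simp only [Formula.relabel, Formula.eval, Term.eval_relabel]
  | rel R ts => intro V' g v; simp only [Formula.relabel, Formula.eval, Term.eval_relabel]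
  | conn c φ ih => intro V' g v; simp only [Formula.relabel, Formula.eval, ih]
  | sup φ ih =>
    intro V' g v
    simp only [Formula.relabel, Formula.eval, ih, elim_comp_map]
  | inf φ ih =>
    intro V' g v
    simp only [Formula.relabel, Formula.eval, ih, elim_comp_map]

/-- Every formula is bounded, uniformly in all structures. -/
lemma Formula.bounded {V : Type u} (φ : Formula.{w, u} L V) :
    ∃ B : ℝ, ∀ (M : Str.{w, u} L) (v : V → M), |φ.eval M v| ≤ B := by
  induction φ with
  | dist s t =>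
    refine ⟨1, fun M v => ?_⟩
    simp only [Formula.eval]
    rw [abs_of_nonneg dist_nonneg]
    exact M.dist_le_one _ _
  | rel R ts =>
    refine ⟨1, fun M v => ?_⟩
    simp only [Formula.eval]
    rw [abs_of_nonneg (M.rel_nonneg _ _)]
    exact M.rel_le_one _ _
  | @conn V k c φ ih =>
    choose B hB using ih
    have hK : IsCompact (Set.pi Set.univ fun i : Fin k => Set.Icc (-(B i)) (B i)) :=
      isCompact_univ_pi fun i => isCompact_Icc
    obtain ⟨C, hC⟩ := (hK.image c.continuous).isBounded.exists_norm_le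
    refine ⟨C, fun M v => ?_⟩
    have := hC (c fun i => (φ i).eval M v) ⟨_, fun i _ => by
      have := hB i M v
      rw [abs_le] at this
      exact this, rfl⟩
    simpa only [Formula.eval, Real.norm_eq_abs] using this
  | sup φ ih =>
    obtain ⟨B, hB⟩ := ih
    refine ⟨B, fun M v => ?_⟩
    simp only [Formula.eval]
    rw [abs_le]
    have h1 : BddAbove (Set.range fun x : M => φ.eval M fun o => o.elim x v) :=
      ⟨B, by rintro _ ⟨x, rfl⟩; exact (abs_le.1 (hB M _)).2⟩
    obtain ⟨x0⟩ := M.nonempty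
    exact ⟨(abs_le.1 (hB M _)).1.trans (le_ciSup h1 x0), ciSup_le fun x => (abs_le.1 (hB M _)).2⟩
  | inf φ ih =>
    obtain ⟨B, hB⟩ := ih
    refine ⟨B, fun M v => ?_⟩
    simp only [Formula.eval]
    rw [abs_le]
    have h1 : BddBelow (Set.range fun x : M => φ.eval M fun o => o.elim x v) :=
      ⟨-B, by rintro _ ⟨x, rfl⟩; exact (abs_le.1 (hB M _)).1⟩
    obtain ⟨x0⟩ := M.nonempty
    exact ⟨le_ciInf fun x => (abs_le.1 (hB M _)).1, (ciInf_le h1 x0).trans (abs_le.1 (hB M _)).2⟩

lemma Formula.bddAbove (M : Str.{w, u} L) {V : Type u} (φ : Formula L (Option V)) (v : V → M) :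
    BddAbove (Set.range fun x : M => φ.eval M fun o => o.elim x v) := by
  obtain ⟨B, hB⟩ := φ.bounded
  exact ⟨B, by rintro _ ⟨x, rfl⟩; exact (abs_le.1 (hB M _)).2⟩

lemma Formula.bddBelow (M : Str.{w, u} L) {V : Type u} (φ : Formula L (Option V)) (v : V → M) :
    BddBelow (Set.range fun x : M => φ.eval M fun o => o.elim x v) := by
  obtain ⟨B, hB⟩ := φ.bounded
  exact ⟨-B, by rintro _ ⟨x, rfl⟩; exact (abs_le.1 (hB M _)).1⟩

lemma Formula.eval_inf_le (M : Str.{w, u} L) {V : Type u} (φ : Formula L (Option V)) (v : V → M)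
    (x : M) : (Formula.inf φ).eval M v ≤ φ.eval M fun o => o.elim x v :=
  ciInf_le (φ.bddBelow M v) x

lemma Formula.eval_inf_lt (M : Str.{w, u} L) {V : Type u} (φ : Formula L (Option V)) (v : V → M)
    {ε : ℝ} (hε : 0 < ε) :
    ∃ x : M, (φ.eval M fun o => o.elim x v) < (Formula.inf φ).eval M v + ε :=
  exists_lt_of_ciInf_lt (lt_add_of_pos_right _ hε)

/-- Two bounded families of reals which are close have close suprema. -/
lemma abs_ciSup_sub_le {ι : Type u} [Nonempty ι] {f g : ι → ℝ} {ε : ℝ}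
    (hf : BddAbove (Set.range f)) (hg : BddAbove (Set.range g)) (h : ∀ i, |f i - g i| ≤ ε) :
    |(⨆ i, f i) - ⨆ i, g i| ≤ ε := by
  rw [abs_le]
  constructor
  · have : (⨆ i, g i) ≤ (⨆ i, f i) + ε := ciSup_le fun i => by
      have h1 := (abs_le.1 (h i)).1
      have h2 := le_ciSup hf i
      linarith
    linarith
  · have : (⨆ i, f i) ≤ (⨆ i, g i) + ε := ciSup_le fun i => by
      have h1 := (abs_le.1 (h i)).2
      have h2 := le_ciSup hg i
      linarith
    linarith

/-- Two bounded families of reals which are close have close infima. -/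
lemma abs_ciInf_sub_le {ι : Type u} [Nonempty ι] {f g : ι → ℝ} {ε : ℝ}
    (hf : BddBelow (Set.range f)) (hg : BddBelow (Set.range g)) (h : ∀ i, |f i - g i| ≤ ε) :
    |(⨅ i, f i) - ⨅ i, g i| ≤ ε := by
  rw [abs_le]
  constructor
  · have : (⨅ i, g i) - ε ≤ (⨅ i, f i) := le_ciInf fun i => by
      have h1 := (abs_le.1 (h i)).1
      have h2 := ciInf_le hg i
      linarith
    linarith
  · have : (⨅ i, f i) - ε ≤ (⨅ i, g i) := le_ciInf fun i => by
      have h1 := (abs_le.1 (h i)).2
      have h2 := ciInf_le hf i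
      linarith
    linarith

/-- A continuous function of finitely many bounded reals is uniformly continuous. -/
lemma conn_unif {k : ℕ} (c : C(Fin k → ℝ, ℝ)) (B : Fin k → ℝ) {ε : ℝ} (hε : 0 < ε) :
    ∃ δ : ℝ, 0 < δ ∧ ∀ x y : Fin k → ℝ, (∀ i, |x i| ≤ B i) → (∀ i, |y i| ≤ B i) →
      (∀ i, |x i - y i| ≤ δ) → |c x - c y| ≤ ε := by
  have hK : IsCompact (Set.pi Set.univ fun i : Fin k => Set.Icc (-(B i)) (B i)) :=
    isCompact_univ_pi fun i => isCompact_Icc
  have huc := hK.uniformContinuousOn_of_continuous c.continuous.continuousOn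
  rw [Metric.uniformContinuousOn_iff] at huc
  obtain ⟨δ, hδ, h⟩ := huc ε hε
  refine ⟨δ / 2, half_pos hδ, fun x y hx hy hxy => ?_⟩
  have h1 : dist x y < δ := by
    refine lt_of_le_of_lt ?_ (half_lt_self hδ)
    rw [dist_pi_le_iff (half_pos hδ).le]
    intro i
    rw [Real.dist_eq]
    exact hxy i
  have h2 := h x (fun i _ => abs_le.1 (hx i)) y (fun i _ => abs_le.1 (hy i)) h1
  rw [Real.dist_eq] at h2
  exact h2.le

lemma Term.unif {V : Type u} (t : Term.{w, u} L V) : ∀ ε : ℝ, 0 < ε →
    ∃ δ : ℝ, 0 < δ ∧ ∀ (M : Str.{w, u} L) (v v' : V → M), (∀ i, dist (v i) (v' i) < δ) →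
      dist (t.eval M v) (t.eval M v') ≤ ε := by
  induction t with
  | var x => exact fun ε hε => ⟨ε, hε, fun M v v' h => (h x).le⟩
  | app f ts ih =>
    intro ε hε
    have hpos := L.fnMod_pos f ε hε
    choose δ hδ h using fun i => ih i (L.fnMod f ε / 2) (half_pos hpos)
    obtain ⟨d, hd, hdi⟩ : ∃ d : ℝ, 0 < d ∧ ∀ i, d ≤ δ i := by
      rcases isEmpty_or_nonempty (Fin (L.fnArity f)) with he | he
      · exact ⟨1, one_pos, fun i => (he.false i).elim⟩
      · obtain ⟨i0, hi0⟩ := Finite.exists_min δ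
        exact ⟨δ i0, hδ i0, hi0⟩
    refine ⟨d, hd, fun M v v' hv => M.fn_unif f ε hε _ _ ?_⟩
    refine lt_of_le_of_lt ?_ (half_lt_self hpos)
    rw [dist_pi_le_iff (half_pos hpos).le]
    exact fun i => h i M v v' fun j => (hv j).trans_le (hdi i)

/-- Every formula is uniformly continuous, uniformly in all structures. -/
lemma Formula.unif {V : Type u} (φ : Formula.{w, u} L V) : ∀ ε : ℝ, 0 < ε →
    ∃ δ : ℝ, 0 < δ ∧ ∀ (M : Str.{w, u} L) (v v' : V → M), (∀ i, Dist.dist (v i) (v' i) < δ) →
      |φ.eval M v - φ.eval M v'| ≤ ε := by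
  induction φ with
  | dist s t =>
    intro ε hε
    obtain ⟨δ1, h1, H1⟩ := s.unif (ε / 2) (half_pos hε)
    obtain ⟨δ2, h2, H2⟩ := t.unif (ε / 2) (half_pos hε)
    refine ⟨min δ1 δ2, lt_min h1 h2, fun M v v' hv => ?_⟩
    have a1 := H1 M v v' fun i => (hv i).trans_le (min_le_left _ _)
    have a2 := H2 M v v' fun i => (hv i).trans_le (min_le_right _ _)
    simp only [Formula.eval]
    have := dist_dist_dist_le (s.eval M v) (t.eval M v) (s.eval M v') (t.eval M v')
    rw [Real.dist_eq] at this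
    linarith
  | rel R ts =>
    intro ε hε
    have hpos := L.relMod_pos R ε hε
    choose δ hδ h using fun i => (ts i).unif (L.relMod R ε / 2) (half_pos hpos)
    obtain ⟨d, hd, hdi⟩ : ∃ d : ℝ, 0 < d ∧ ∀ i, d ≤ δ i := by
      rcases isEmpty_or_nonempty (Fin (L.relArity R)) with he | he
      · exact ⟨1, one_pos, fun i => (he.false i).elim⟩
      · obtain ⟨i0, hi0⟩ := Finite.exists_min δ
        exact ⟨δ i0, hδ i0, hi0⟩
    refine ⟨d, hd, fun M v v' hv => M.rel_unif R ε hε _ _ ?_⟩
    refine lt_of_le_of_lt ?_ (half_lt_self hpos)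
    rw [dist_pi_le_iff (half_pos hpos).le]
    exact fun i => h i M v v' fun j => (hv j).trans_le (hdi i)
  | @conn V k c φ ih =>
    intro ε hε
    choose B hB using fun i => (φ i).bounded
    obtain ⟨η, hη, H⟩ := conn_unif c B hε
    choose δ hδ h using fun i => ih i η hη
    obtain ⟨d, hd, hdi⟩ : ∃ d : ℝ, 0 < d ∧ ∀ i, d ≤ δ i := by
      rcases isEmpty_or_nonempty (Fin k) with he | he
      · exact ⟨1, one_pos, fun i => (he.false i).elim⟩
      · obtain ⟨i0, hi0⟩ := Finite.exists_min δ
        exact ⟨δ i0, hδ i0, hi0⟩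
    refine ⟨d, hd, fun M v v' hv => ?_⟩
    exact H _ _ (fun i => hB i M v) (fun i => hB i M v')
      fun i => h i M v v' fun j => (hv j).trans_le (hdi i)
  | sup φ ih =>
    intro ε hε
    obtain ⟨δ, hδ, h⟩ := ih ε hε
    refine ⟨δ, hδ, fun M v v' hv => ?_⟩
    refine abs_ciSup_sub_le (φ.bddAbove M v) (φ.bddAbove M v') fun x => h M _ _ fun o => ?_
    cases o with
    | none => simpa using hδ
    | some i => exact hv i
  | inf φ ih =>
    intro ε hε
    obtain ⟨δ, hδ, h⟩ := ih ε hε
    refine ⟨δ, hδ, fun M v v' hv => ?_⟩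
    refine abs_ciInf_sub_le (φ.bddBelow M v) (φ.bddBelow M v') fun x => h M _ _ fun o => ?_
    cases o with
    | none => simpa using hδ
    | some i => exact hv i

/-- The value of a formula with parameters is a continuous function. -/
lemma continuous_valA {M : Str.{w, u} L} {A : Set M} {n : ℕ} (φ : Formula L (Fin n ⊕ A)) :
    Continuous (valA φ) := by
  rw [Metric.continuous_iff]
  intro x ε hε
  obtain ⟨δ, hδ, h⟩ := φ.unif (ε / 2) (half_pos hε)
  refine ⟨δ, hδ, fun y hy => ?_⟩
  rw [Real.dist_eq]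
  refine lt_of_le_of_lt (h M _ _ fun i => ?_) (half_lt_self hε)
  cases i with
  | inl i => exact (dist_le_pi_dist y x i).trans_lt hy
  | inr a => simpa using hδ

/-- The infimum of a formula over `n` variables. -/
def infN : (n : ℕ) → {V : Type u} → Formula L (Fin n ⊕ V) → Formula L V
  | 0, _, φ => φ.relabel (Sum.elim Fin.elim0 id)
  | n + 1, V, φ => infN n (Formula.inf (φ.relabel (V' := Option (Fin n ⊕ V))
      (Sum.elim (Fin.cases none fun i => some (Sum.inl i)) fun a => some (Sum.inr a))))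

lemma comp_aux {M : Type u} {V : Type u} (n : ℕ) (x : M) (z : Fin n → M) (v : V → M) :
    (fun o : Option (Fin n ⊕ V) => o.elim x (Sum.elim z v)) ∘
      (Sum.elim (Fin.cases none fun i => some (Sum.inl i)) fun a => some (Sum.inr a)) =
      (Sum.elim (Fin.cons x z : Fin (n + 1) → M) v : Fin (n + 1) ⊕ V → M) := by
  funext s
  rcases s with i | a
  · refine Fin.cases ?_ (fun j => ?_) i
    · simp
    · simp
  · rfl

lemma infN_le (M : Str.{w, u} L) : ∀ (n : ℕ) {V : Type u} (φ : Formula L (Fin n ⊕ V)) (v : V → M)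
    (z : Fin n → M), (infN n φ).eval M v ≤ φ.eval M (Sum.elim z v)
  | 0, V, φ, v, z => by
    rw [infN, Formula.eval_relabel]
    refine le_of_eq (congrArg _ ?_)
    funext s
    rcases s with i | a
    · exact i.elim0
    · rfl
  | n + 1, V, φ, v, z => by
    rw [infN]
    refine (infN_le M n _ v (Fin.tail z)).trans ((Formula.eval_inf_le M _ _ (z 0)).trans ?_)
    rw [Formula.eval_relabel, comp_aux, Fin.cons_self_tail]

lemma lt_infN (M : Str.{w, u} L) : ∀ (n : ℕ) {V : Type u} (φ : Formula L (Fin n ⊕ V)) (v : V → M)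
    {ε : ℝ}, 0 < ε → ∃ z : Fin n → M, φ.eval M (Sum.elim z v) < (infN n φ).eval M v + ε
  | 0, V, φ, v, ε, hε => by
    refine ⟨Fin.elim0, ?_⟩
    rw [infN, Formula.eval_relabel]
    have : (Sum.elim Fin.elim0 v : Fin 0 ⊕ V → M) = v ∘ Sum.elim Fin.elim0 id := by
      funext s
      rcases s with i | a
      · exact i.elim0
      · rfl
    rw [this]
    exact lt_add_of_pos_right _ hε
  | n + 1, V, φ, v, ε, hε => by
    rw [infN]
    obtain ⟨z, hz⟩ := lt_infN M n (Formula.inf (φ.relabel (V' := Option (Fin n ⊕ V))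
      (Sum.elim (Fin.cases none fun i => some (Sum.inl i)) fun a => some (Sum.inr a)))) v
      (half_pos hε)
    obtain ⟨x, hx⟩ := Formula.eval_inf_lt M (φ.relabel (V' := Option (Fin n ⊕ V))
      (Sum.elim (Fin.cases none fun i => some (Sum.inl i)) fun a => some (Sum.inr a)))
      (Sum.elim z v) (half_pos hε)
    rw [Formula.eval_relabel, comp_aux] at hx
    exact ⟨Fin.cons x z, by linarith⟩

lemma le_infN (M : Str.{w, u} L) (n : ℕ) {V : Type u} (φ : Formula L (Fin n ⊕ V)) (v : V → M)
    {r : ℝ} (h : ∀ z : Fin n → M, r ≤ φ.eval M (Sum.elim z v)) : r ≤ (infN n φ).eval M v := by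
  refine le_of_forall_pos_lt_add fun ε hε => ?_
  obtain ⟨z, hz⟩ := lt_infN M n φ v hε
  exact (h z).trans_lt hz

end Pool.Agent.K1H65.CL
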