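import Mathlib

/-!
# Continuous first-order logic for metric structures

Signatures, metric structures, formulas, theories, definable predicates, d-definable sets,
complete types, elementary extensions, stability.
-/

set_option autoImplicit false

universe w u

namespace Pool.Agent.K1H65.CL

/-- A signature of continuous logic: function symbols (the constants are the function symbols of
arity `0`) and predicate symbols, with their arities and moduli of uniform continuity. -/
structure Signature where
  /-- the function symbols -/
  Fn : Type w
  /-- the arity of a function symbol -/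
  fnArity : Fn → ℕ
  /-- the modulus of uniform continuity of a function symbol -/
  fnMod : Fn → ℝ → ℝ
  fnMod_pos : ∀ (f : Fn) (ε : ℝ), 0 < ε → 0 < fnMod f ε
  /-- the predicate symbols -/
  Rel : Type w
  /-- the arity of a predicate symbol -/
  relArity : Rel → ℕ
  /-- the modulus of uniform continuity of a predicate symbol -/
  relMod : Rel → ℝ → ℝ
  relMod_pos : ∀ (R : Rel) (ε : ℝ), 0 < ε → 0 < relMod R ε

/-- A metric structure of signature `L`: a nonempty complete metric space of diameter at most `1`
with functions and `[0,1]`-valued predicates which obey the moduli of uniform continuity. (Finite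
powers carry the maximum metric.) -/
structure Str (L : Signature.{w}) where
  /-- the universe of the structure -/
  carrier : Type u
  /-- the metric -/
  [metric : MetricSpace carrier]
  [complete : CompleteSpace carrier]
  [nonempty : Nonempty carrier]
  dist_le_one : ∀ x y : carrier, dist x y ≤ 1
  /-- the interpretations of the function symbols -/
  fn : ∀ f : L.Fn, (Fin (L.fnArity f) → carrier) → carrier
  /-- the interpretations of the predicate symbols -/
  rel : ∀ R : L.Rel, (Fin (L.relArity R) → carrier) → ℝ
  rel_nonneg : ∀ R x, 0 ≤ rel R x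
  rel_le_one : ∀ R x, rel R x ≤ 1
  fn_unif : ∀ (f : L.Fn) (ε : ℝ), 0 < ε → ∀ x y : Fin (L.fnArity f) → carrier,
    dist x y < L.fnMod f ε → dist (fn f x) (fn f y) ≤ ε
  rel_unif : ∀ (R : L.Rel) (ε : ℝ), 0 < ε → ∀ x y : Fin (L.relArity R) → carrier,
    dist x y < L.relMod R ε → |rel R x - rel R y| ≤ ε

attribute [instance] Str.metric Str.complete Str.nonempty

instance (L : Signature.{w}) : CoeSort (Str.{w, u} L) (Type u) := ⟨Str.carrier⟩

/-- Terms with variables from `V`. -/
inductive Term (L : Signature.{w}) (V : Type u) : Type (max w u)
  | var (x : V) : Term L V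
  | app (f : L.Fn) (ts : Fin (L.fnArity f) → Term L V) : Term L V

/-- Formulas with free variables from `V`: distances of terms, predicates applied to terms,
continuous functions of finitely many formulas, and the supremum and the infimum over one variable
(the variable `none`). -/
inductive Formula (L : Signature.{w}) : Type u → Type (max w (u + 1))
  | dist {V : Type u} (s t : Term L V) : Formula L V
  | rel {V : Type u} (R : L.Rel) (ts : Fin (L.relArity R) → Term L V) : Formula L V
  | conn {V : Type u} {k : ℕ} (c : C(Fin k → ℝ, ℝ)) (φ : Fin k → Formula L V) : Formula L V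
  | sup {V : Type u} (φ : Formula L (Option V)) : Formula L V
  | inf {V : Type u} (φ : Formula L (Option V)) : Formula L V

variable {L : Signature.{w}}

/-- The value of a term. -/
def Term.eval (M : Str.{w, u} L) {V : Type u} (v : V → M) : Term L V → M
  | .var x => v x
  | .app f ts => M.fn f fun i => (ts i).eval M v

/-- The value of a formula. -/
noncomputable def Formula.eval (M : Str.{w, u} L) : {V : Type u} → Formula L V → (V → M) → ℝ
  | _, .dist s t, v => Dist.dist (s.eval M v) (t.eval M v)
  | _, .rel R ts, v => M.rel R fun i => (ts i).eval M v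
  | _, .conn c φ, v => c fun i => (φ i).eval M v
  | _, .sup φ, v => ⨆ x : M, φ.eval M (fun o => o.elim x v)
  | _, .inf φ, v => ⨅ x : M, φ.eval M (fun o => o.elim x v)

/-- A theory: a set of closed conditions `φ = 0`, where `φ` is a sentence. -/
abbrev Theory (L : Signature.{w}) : Type (max w (u + 1)) := Set (Formula.{w, u} L PEmpty.{u + 1})

/-- `M` is a model of the theory `T`. -/
def Str.Models (M : Str.{w, u} L) (T : Theory.{w, u} L) : Prop :=
  ∀ φ ∈ T, φ.eval M PEmpty.elim = 0

/-- The value in `M` of a formula with parameters from `A` and free variables `x_0, …, x_{n-1}`. -/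
noncomputable def valA {M : Str.{w, u} L} {A : Set M} {n : ℕ} (φ : Formula L (Fin n ⊕ A))
    (x : Fin n → M) : ℝ :=
  φ.eval M (Sum.elim x Subtype.val)

/-- A definable predicate over `A` on `M ^ n`: a uniform limit of formulas with parameters
from `A`. -/
def DefinablePred (M : Str.{w, u} L) (A : Set M) (n : ℕ) (P : (Fin n → M) → ℝ) : Prop :=
  ∀ ε : ℝ, 0 < ε → ∃ φ : Formula L (Fin n ⊕ A), ∀ x, |P x - valA φ x| ≤ ε

/-- The distance of a point from a set; the distance from the empty set is `1`. -/
noncomputable def setDist {M : Str.{w, u} L} {n : ℕ} (x : Fin n → M) (D : Set (Fin n → M)) : ℝ :=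
  open Classical in if D.Nonempty then Metric.infDist x D else 1

/-- `D ⊆ M ^ n` is d-definable in `M` over `A`: `D` is closed and the distance from `D` is a
definable predicate over `A`. -/
def DDefinable (M : Str.{w, u} L) (A : Set M) (n : ℕ) (D : Set (Fin n → M)) : Prop :=
  IsClosed D ∧ DefinablePred M A n fun x => setDist x D

/-- A complete `n`-type over `A`: an assignment of values to the formulas `φ(x)` with parameters
from `A` such that the conditions `φ(x) = p(φ)` are approximately finitely satisfiable in `M`. -/
structure CType (M : Str.{w, u} L) (A : Set M) (n : ℕ) where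
  /-- the value which the type gives to a formula -/
  val : Formula L (Fin n ⊕ A) → ℝ
  approx : ∀ (F : Finset (Formula L (Fin n ⊕ A))) (ε : ℝ), 0 < ε →
    ∃ x : Fin n → M, ∀ φ ∈ F, |valA φ x - val φ| < ε

/-- The set `p(M)` of the realizations of the type `p` in `M`. -/
def CType.real {M : Str.{w, u} L} {A : Set M} {n : ℕ} (p : CType M A n) : Set (Fin n → M) :=
  {x | ∀ φ : Formula L (Fin n ⊕ A), valA φ x = p.val φ}

/-- `T` has enough d-definable sets: for every model `M` of `T`, every `A ⊆ M` and every complete
type `p` over `A`, the set `p(M)` is an intersection of sets which are d-definable in `M`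
over `A`. -/
def EnoughDDefinable (T : Theory.{w, u} L) : Prop :=
  ∀ M : Str.{w, u} L, M.Models T → ∀ (A : Set M) (n : ℕ) (p : CType M A n),
    ∃ 𝒟 : Set (Set (Fin n → M)), (∀ D ∈ 𝒟, DDefinable M A n D) ∧ p.real = ⋂₀ 𝒟

/-- An elementary extension of `M`. -/
structure ElemExt (M : Str.{w, u} L) where
  /-- the extension -/
  N : Str.{w, u} L
  /-- the elementary embedding -/
  emb : M → N
  eval_emb : ∀ {V : Type u} (φ : Formula L V) (v : V → M), φ.eval N (emb ∘ v) = φ.eval M v

/-- The tuple `b` of an elementary extension of `M` realizes the type `p`. -/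
def CType.RealizedBy {M : Str.{w, u} L} {A : Set M} {n : ℕ} (p : CType M A n) (E : ElemExt M)
    (b : Fin n → E.N) : Prop :=
  ∀ φ : Formula L (Fin n ⊕ A), φ.eval E.N (Sum.elim b fun a => E.emb a.1) = p.val φ

/-- The distance of the types `p` and `q` is less than `r`: in some elementary extension of `M`
there are realizations of `p` and of `q` of distance less than `r`. -/
def CType.DistLt {M : Str.{w, u} L} {A : Set M} {n : ℕ} (p q : CType M A n) (r : ℝ) : Prop :=
  ∃ (E : ElemExt M) (b c : Fin n → E.N), p.RealizedBy E b ∧ q.RealizedBy E c ∧ dist b c < r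

/-- The space of `n`-types over `A` is separable in the metric on types. -/
def SeparableTypes (M : Str.{w, u} L) (A : Set M) (n : ℕ) : Prop :=
  ∃ C : Set (CType M A n), C.Countable ∧ ∀ (p : CType M A n) (r : ℝ), 0 < r →
    ∃ q ∈ C, p.DistLt q r

/-- `T` is `ℵ₀`-stable: for every countable set `A` of parameters in a model of `T` and every `n`
the space of `n`-types over `A` is separable in the metric on types. -/
def Aleph0Stable (T : Theory.{w, u} L) : Prop :=
  ∀ M : Str.{w, u} L, M.Models T → ∀ A : Set M, A.Countable → ∀ n : ℕ, SeparableTypes M A n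

/-- The formula `φ(x,y)` has the order property in `M`: for some `ε > 0` there are tuples `a i`,
`b i` such that `|φ(a i, b j) - φ(a j, b i)| ≥ ε` for all `i < j`. -/
def OrderProperty (M : Str.{w, u} L) {n m : ℕ} (φ : Formula L (ULift.{u} (Fin n ⊕ Fin m))) :
    Prop :=
  ∃ ε : ℝ, 0 < ε ∧ ∃ (a : ℕ → Fin n → M) (b : ℕ → Fin m → M), ∀ i j, i < j →
    ε ≤ |φ.eval M (fun z => Sum.elim (a i) (b j) z.down) -
      φ.eval M (fun z => Sum.elim (a j) (b i) z.down)|

/-- `T` is stable: no formula has the order property in a model of `T`. -/
def Stable (T : Theory.{w, u} L) : Prop :=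
  ∀ M : Str.{w, u} L, M.Models T → ∀ (n m : ℕ) (φ : Formula L (ULift.{u} (Fin n ⊕ Fin m))),
    ¬ OrderProperty M φ

end Pool.Agent.K1H65.CL
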