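import Pool.Agent.K1H65.CL.Basic

/-! Separable type spaces give d-definable sets. -/

set_option autoImplicit false

universe w u

open Filter Topology

namespace Pool.Agent.K1H65.CL

variable {L : Signature.{w}}

/-- Every formula has finitely many free variables. -/
lemma Term.exists_finite {V : Type u} (t : Term.{w, u} L V) :
    ∃ (S : Set V), S.Finite ∧ ∃ t' : Term L S, ∀ (M : Str.{w, u} L) (v : V → M),
      t.eval M v = t'.eval M (fun s => v s.1) := by
  induction t with
  | var x => exact ⟨{x}, Set.finite_singleton x, .var ⟨x, rfl⟩, fun M v => rfl⟩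
  | app f ts ih =>
    choose S hS t' ht' using ih
    refine ⟨⋃ i, S i, Set.finite_iUnion hS,
      .app f fun i => (t' i).relabel (Set.inclusion (Set.subset_iUnion S i)), fun M v => ?_⟩
    simp only [Term.eval, Term.eval_relabel]
    exact congrArg _ (funext fun i => ht' i M v)

/-- Every formula has finitely many free variables. -/
lemma Formula.exists_finite {V : Type u} (φ : Formula.{w, u} L V) :
    ∃ (S : Set V), S.Finite ∧ ∃ φ' : Formula L S, ∀ (M : Str.{w, u} L) (v : V → M),
      φ.eval M v = φ'.eval M (fun s => v s.1) := by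
  induction φ with
  | @dist V s t =>
    obtain ⟨S1, h1, s', hs⟩ := s.exists_finite
    obtain ⟨S2, h2, t', ht⟩ := t.exists_finite
    refine ⟨S1 ∪ S2, h1.union h2, .dist (s'.relabel (Set.inclusion Set.subset_union_left))
      (t'.relabel (Set.inclusion Set.subset_union_right)), fun M v => ?_⟩
    simp only [Formula.eval, Term.eval_relabel]
    rw [hs M v, ht M v]
    rfl
  | @rel V R ts =>
    choose S hS t' ht' using fun i => (ts i).exists_finite
    refine ⟨⋃ i, S i, Set.finite_iUnion hS,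
      .rel R fun i => (t' i).relabel (Set.inclusion (Set.subset_iUnion S i)), fun M v => ?_⟩
    simp only [Formula.eval, Term.eval_relabel]
    exact congrArg _ (funext fun i => ht' i M v)
  | @conn V k c φ ih =>
    choose S hS t' ht' using ih
    refine ⟨⋃ i, S i, Set.finite_iUnion hS,
      .conn c fun i => (t' i).relabel (Set.inclusion (Set.subset_iUnion S i)), fun M v => ?_⟩
    simp only [Formula.eval, Formula.eval_relabel]
    exact congrArg _ (funext fun i => ht' i M v)
  | @sup V φ ih =>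
    obtain ⟨S, hS, φ', h⟩ := ih
    refine ⟨some ⁻¹' S, hS.preimage (Option.some_injective V).injOn,
      .sup (φ'.relabel fun o => match o with
        | ⟨none, _⟩ => none
        | ⟨some a, ha⟩ => some ⟨a, ha⟩), fun M v => ?_⟩
    simp only [Formula.eval, Formula.eval_relabel]
    refine congrArg _ (funext fun x => ?_)
    rw [h]
    refine congrArg _ (funext fun o => ?_)
    rcases o with ⟨_ | a, ha⟩ <;> rfl
  | @inf V φ ih =>
    obtain ⟨S, hS, φ', h⟩ := ih
    refine ⟨some ⁻¹' S, hS.preimage (Option.some_injective V).injOn,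
      .inf (φ'.relabel fun o => match o with
        | ⟨none, _⟩ => none
        | ⟨some a, ha⟩ => some ⟨a, ha⟩), fun M v => ?_⟩
    simp only [Formula.eval, Formula.eval_relabel]
    refine congrArg _ (funext fun x => ?_)
    rw [h]
    refine congrArg _ (funext fun o => ?_)
    rcases o with ⟨_ | a, ha⟩ <;> rfl

/-- A formula with parameters from `A` uses only finitely many parameters. -/
lemma exists_finite_params {M : Str.{w, u} L} {A : Set M} {n : ℕ} (φ : Formula L (Fin n ⊕ A)) :
    ∃ A0 : Set M, A0.Finite ∧ A0 ⊆ A ∧ ∃ φ0 : Formula L (Fin n ⊕ A0), ∀ x, valA φ0 x = valA φ x := by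
  obtain ⟨S, hS, φ', h⟩ := φ.exists_finite
  refine ⟨Subtype.val '' (Sum.inr ⁻¹' S), (hS.preimage Sum.inr_injective.injOn).image _, ?_, ?_⟩
  · rintro _ ⟨a, -, rfl⟩
    exact a.2
  · refine ⟨φ'.relabel fun s => match s with
      | ⟨Sum.inl i, _⟩ => Sum.inl i
      | ⟨Sum.inr a, ha⟩ => Sum.inr ⟨a.1, a, ha, rfl⟩, fun x => ?_⟩
    rw [valA, valA, h, Formula.eval_relabel]
    refine congrArg _ (funext fun o => ?_)
    rcases o with ⟨_ | a, ha⟩ <;> rfl

/-- The connective `min (1, |r_0, …, r_{n-1}| + N * max (0, r_n - s))`. -/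
noncomputable def penC (n : ℕ) (N s : ℝ) : C(Fin (n + 1) → ℝ, ℝ) where
  toFun r := min 1 (‖fun i : Fin n => r i.castSucc‖ + N * max 0 (r (Fin.last n) - s))
  continuous_toFun := by fun_prop

/-- The formula `inf_z min (1, d(x,z) + N * max (0, f(z) - s))`. -/
noncomputable def pen {n : ℕ} {V : Type u} (f : Formula L (Fin n ⊕ V)) (N s : ℝ) :
    Formula L (Fin n ⊕ V) :=
  infN n (.conn (penC n N s) (Fin.lastCases (f.relabel (Sum.map id Sum.inr)) fun i =>
    .dist (.var (Sum.inr (Sum.inl i))) (.var (Sum.inl i))))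

lemma pen_aux {n : ℕ} {V : Type u} (f : Formula L (Fin n ⊕ V)) (N s : ℝ) (K : Str.{w, u} L)
    (x z : Fin n → K) (e : V → K) :
    (Formula.conn (penC n N s) (Fin.lastCases (f.relabel (Sum.map id Sum.inr)) fun i =>
    .dist (.var (Sum.inr (Sum.inl i))) (.var (Sum.inl i))) :
      Formula L (Fin n ⊕ (Fin n ⊕ V))).eval K (Sum.elim z (Sum.elim x e)) =
      min 1 (dist x z + N * max 0 (f.eval K (Sum.elim z e) - s)) := by
  simp only [Formula.eval, penC, ContinuousMap.coe_mk, Fin.lastCases_last, Fin.lastCases_castSucc]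
  rw [Formula.eval_relabel]
  have h1 : (Sum.elim z (Sum.elim x e)) ∘ (Sum.map id Sum.inr) = (Sum.elim z e : Fin n ⊕ V → K) := by
    funext o
    rcases o with i | a <;> rfl
  rw [h1]
  have h2 : ‖fun i : Fin n => dist (x i) (z i)‖ = dist x z := by
    refine le_antisymm ?_ ?_
    · rw [pi_norm_le_iff_of_nonneg dist_nonneg]
      intro i
      rw [Real.norm_eq_abs, abs_of_nonneg dist_nonneg]
      exact dist_le_pi_dist x z i
    · rw [dist_pi_le_iff (norm_nonneg _)]
      intro i
      refine le_trans ?_ (norm_le_pi_norm (fun i : Fin n => dist (x i) (z i)) i)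
      rw [Real.norm_eq_abs, abs_of_nonneg dist_nonneg]
  have h3 : (fun i : Fin n => dist ((Term.var (Sum.inr (Sum.inl i)) : Term L (Fin n ⊕ (Fin n ⊕ V))).eval K
      (Sum.elim z (Sum.elim x e))) ((Term.var (Sum.inl i)).eval K (Sum.elim z (Sum.elim x e)))) =
      fun i => dist (x i) (z i) := rfl
  rw [h3, h2]

lemma pen_le {n : ℕ} {V : Type u} (f : Formula L (Fin n ⊕ V)) (N s : ℝ) (K : Str.{w, u} L)
    (x z : Fin n → K) (e : V → K) :
    (pen f N s).eval K (Sum.elim x e) ≤
      min 1 (dist x z + N * max 0 (f.eval K (Sum.elim z e) - s)) := by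
  rw [← pen_aux]
  exact infN_le K n _ _ z

lemma le_pen {n : ℕ} {V : Type u} (f : Formula L (Fin n ⊕ V)) (N s : ℝ) (K : Str.{w, u} L)
    (x : Fin n → K) (e : V → K) {r : ℝ}
    (h : ∀ z : Fin n → K, r ≤ min 1 (dist x z + N * max 0 (f.eval K (Sum.elim z e) - s))) :
    r ≤ (pen f N s).eval K (Sum.elim x e) := by
  refine le_infN K n _ _ fun z => ?_
  rw [pen_aux]
  exact h z

lemma pen_lip {n : ℕ} {V : Type u} (f : Formula L (Fin n ⊕ V)) (N s : ℝ) (K : Str.{w, u} L)
    (x y : Fin n → K) (e : V → K) :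
    (pen f N s).eval K (Sum.elim x e) - dist x y ≤ (pen f N s).eval K (Sum.elim y e) := by
  refine le_pen f N s K y e fun z => ?_
  have h1 := pen_le f N s K x z e
  have h2 := dist_triangle x y z
  have h3 : (0 : ℝ) ≤ dist x y := dist_nonneg
  rw [le_min_iff] at h1 ⊢
  constructor
  · linarith [h1.1]
  · linarith [h1.2]

section Levels

variable {M : Str.{w, u} L} {A : Set M} {n : ℕ}

/-- The level `t` is `ε`-good for `f`: for some `s < t` every point with `f < t` has distance less
than `ε` from a point with `f < s`. -/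
def Good (f : Formula L (Fin n ⊕ A)) (ε t : ℝ) : Prop :=
  ∃ s < t, ∀ x : Fin n → M, valA f x < t → ∃ y : Fin n → M, valA f y < s ∧ dist x y < ε

/-- Limits of types of elements of `M` along ultrafilters. -/
lemma exists_limit_type (x : ℕ → Fin n → M) :
    ∃ q : CType M A n, ∀ (φ : Formula L (Fin n ⊕ A)),
      Tendsto (fun m => valA φ (x m)) (hyperfilter ℕ : Filter ℕ) (𝓝 (q.val φ)) := by
  have h : ∀ φ : Formula L (Fin n ⊕ A), ∃ r : ℝ,
      Tendsto (fun m => valA φ (x m)) (hyperfilter ℕ : Filter ℕ) (𝓝 r) := by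
    intro φ
    obtain ⟨B, hB⟩ := φ.bounded
    have hc : IsCompact (Set.Icc (-B) B) := isCompact_Icc
    obtain ⟨r, -, hr⟩ := hc.ultrafilter_le_nhds ((hyperfilter ℕ).map fun m => valA φ (x m)) (by
      rw [Ultrafilter.coe_map, le_principal_iff, mem_map]
      exact Filter.Eventually.of_forall fun m => abs_le.1 (hB M _))
    exact ⟨r, hr⟩
  choose r hr using h
  refine ⟨⟨r, fun F ε hε => ?_⟩, hr⟩
  have h1 : ∀ᶠ m in (hyperfilter ℕ : Filter ℕ), ∀ φ ∈ F, |valA φ (x m) - r φ| < ε := by
    rw [Filter.eventually_all_finset]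
    intro φ _
    have := (Metric.tendsto_nhds.1 (hr φ)) ε hε
    simpa only [Real.dist_eq] using this
  obtain ⟨m, hm⟩ := h1.exists
  exact ⟨x m, hm⟩

lemma bad_countable (hsep : SeparableTypes M A n) (f : Formula L (Fin n ⊕ A)) {ε : ℝ}
    (hε : 0 < ε) : {t : ℝ | ¬ Good f ε t}.Countable := by
  obtain ⟨C, hC, hdense⟩ := hsep
  set ε' := min ε 1 with hε'
  have hε'0 : 0 < ε' := lt_min hε one_pos
  have hε'1 : ε' ≤ 1 := min_le_right _ _
  have hx : ∀ t : {t : ℝ | ¬ Good f ε t}, ∀ m : ℕ, ∃ x : Fin n → M, valA f x < t.1 ∧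
      ∀ y : Fin n → M, valA f y < t.1 - 1 / ((m : ℝ) + 1) → ε ≤ dist x y := by
    rintro ⟨t, ht⟩ m
    have h1 : (0 : ℝ) < 1 / ((m : ℝ) + 1) := by positivity
    have h2 : ¬ Good f ε t := ht
    rw [Good] at h2
    push Not at h2
    exact h2 (t - 1 / ((m : ℝ) + 1)) (by linarith)
  choose x hx1 hx2 using hx
  choose q hq using fun t => exists_limit_type (A := A) (x t)
  choose c hcC hc using fun t => hdense (q t) (ε' / 2) (half_pos hε'0)
  have hinj : ∀ t t' : {t : ℝ | ¬ Good f ε t}, t.1 < t'.1 → c t ≠ c t' := by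
    intro t t' htt heq
    set s : ℝ := (2 * t.1 + t'.1) / 3 with hs
    set s' : ℝ := (t.1 + 2 * t'.1) / 3 with hs'
    have h1 : t.1 < s := by rw [hs]; linarith
    have h2 : s < s' := by rw [hs, hs']; linarith
    have h3 : s' < t'.1 := by rw [hs']; linarith
    set N : ℝ := 1 / (s' - s) with hN
    have hN0 : 0 < N := by rw [hN]; exact one_div_pos.2 (by linarith)
    -- the value of `f` at `q t`
    have hqf : (q t).val f ≤ t.1 :=
      le_of_tendsto (hq t f) (Filter.Eventually.of_forall fun m => (hx1 t m).le)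
    -- the value of `pen` at `q t'`
    have hqp : ε' ≤ (q t').val (pen f N s) := by
      refine ge_of_tendsto (hq t' (pen f N s)) ?_
      have hcof : ∀ᶠ m : ℕ in (hyperfilter ℕ : Filter ℕ), 1 / ((m : ℝ) + 1) < t'.1 - s' := by
        have : ∀ᶠ m : ℕ in atTop, 1 / ((m : ℝ) + 1) < t'.1 - s' :=
          (tendsto_one_div_add_atTop_nhds_zero_nat.eventually (gt_mem_nhds (by linarith)))
        rw [← Nat.cofinite_eq_atTop] at this
        exact this.filter_mono hyperfilter_le_cofinite
      filter_upwards [hcof] with m hm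
      refine le_pen f N s M _ _ fun z => ?_
      rw [le_min_iff]
      refine ⟨hε'1, ?_⟩
      rcases lt_or_ge (valA f z) (t'.1 - 1 / ((m : ℝ) + 1)) with hz | hz
      · have h4 := hx2 t' m z hz
        have h5 : 0 ≤ N * max 0 (f.eval M (Sum.elim z Subtype.val) - s) :=
          mul_nonneg hN0.le (le_max_left _ _)
        linarith [min_le_left ε 1]
      · have h4 : s' - s ≤ max 0 (f.eval M (Sum.elim z Subtype.val) - s) := by
          refine le_trans ?_ (le_max_right _ _)
          have : valA f z = f.eval M (Sum.elim z Subtype.val) := rfl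
          linarith
        have h5 : 1 ≤ N * max 0 (f.eval M (Sum.elim z Subtype.val) - s) := by
          calc (1 : ℝ) = N * (s' - s) := by
                rw [hN]
                field_simp
                rw [div_self (by linarith)]
            _ ≤ _ := mul_le_mul_of_nonneg_left h4 hN0.le
        have h6 : (0 : ℝ) ≤ dist (x t' m) z := dist_nonneg
        linarith
    obtain ⟨E, b, b', hb, hb', hbb⟩ := hc t
    obtain ⟨E', d, d', hd, hd', hdd⟩ := hc t'
    have e1 : (c t).val (pen f N s) < ε' / 2 := by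
      rw [← hb' (pen f N s)]
      have h4 := pen_le f N s E.N b' b (fun a => E.emb a.1)
      have h5 : f.eval E.N (Sum.elim b fun a => E.emb a.1) = (q t).val f := hb f
      rw [h5, max_eq_left (by linarith), mul_zero, add_zero, dist_comm] at h4
      exact lt_of_le_of_lt (h4.trans (min_le_right _ _)) hbb
    have e2 : ε' / 2 < (c t').val (pen f N s) := by
      rw [← hd' (pen f N s)]
      have h4 := pen_lip f N s E'.N d d' (fun a => E'.emb a.1)
      have h5 := hd (pen f N s)
      rw [h5] at h4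
      linarith
    rw [heq] at e1
    linarith
  have hinj' : Function.Injective fun t => (⟨c t, hcC t⟩ : C) := by
    intro t t' h
    have h1 : c t = c t' := congrArg Subtype.val h
    rcases lt_trichotomy t.1 t'.1 with h2 | h2 | h2
    · exact (hinj t t' h2 h1).elim
    · exact Subtype.ext h2
    · exact (hinj t' t h2 h1.symm).elim
  have : Countable C := hC.to_subtype
  exact Set.countable_coe_iff.1 hinj'.countable

/-- Between two levels there is a level which is good for all `ε`. -/
lemma exists_good (hsep : SeparableTypes M A n) (f : Formula L (Fin n ⊕ A)) {a b : ℝ}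
    (hab : a < b) : ∃ t, a < t ∧ t < b ∧ ∀ ε : ℝ, 0 < ε → Good f ε t := by
  have h1 : (⋃ k : ℕ, {t : ℝ | ¬ Good f (1 / ((k : ℝ) + 1)) t}).Countable :=
    Set.countable_iUnion fun k => bad_countable hsep f (by positivity)
  have h2 : ¬ (Set.Ioo a b).Countable := by
    rw [Cardinal.Real.Ioo_countable_iff]
    exact not_le_of_gt hab
  obtain ⟨t, ht1, ht2⟩ : ∃ t ∈ Set.Ioo a b, t ∉ ⋃ k : ℕ, {t : ℝ | ¬ Good f (1 / ((k : ℝ) + 1)) t} := by
    by_contra hcon
    push Not at hcon
    exact h2 (h1.mono fun t ht => hcon t ht)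
  refine ⟨t, ht1.1, ht1.2, fun ε hε => ?_⟩
  obtain ⟨k, hk⟩ := exists_nat_one_div_lt hε
  have h3 : Good f (1 / ((k : ℝ) + 1)) t := by
    by_contra hcon
    exact ht2 (Set.mem_iUnion.2 ⟨k, hcon⟩)
  obtain ⟨s, hs, h⟩ := h3
  exact ⟨s, hs, fun x hx => by
    obtain ⟨y, hy1, hy2⟩ := h x hx
    exact ⟨y, hy1, hy2.trans hk⟩⟩

lemma tuple_dist_le_one (x y : Fin n → M) : dist x y ≤ 1 := by
  rw [dist_pi_le_iff zero_le_one]
  exact fun i => M.dist_le_one _ _

/-- The main construction. -/
lemma exists_ddefinable (hsep : SeparableTypes M A n) (f : Formula L (Fin n ⊕ A))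
    (hf : ∀ η : ℝ, 0 < η → ∃ x : Fin n → M, valA f x < η) :
    ∃ D : Set (Fin n → M), DDefinable M A n D ∧ (∀ x, valA f x ≤ 0 → x ∈ D) ∧
      ∀ x ∈ D, valA f x < 1 := by
  classical
  -- the sequence of levels
  let P : ℝ → Prop := fun t => 0 < t ∧ t < 1 ∧ ∀ ε : ℝ, 0 < ε → Good f ε t
  obtain ⟨t0, h01, h02, h03⟩ := exists_good hsep f (zero_lt_one (α := ℝ))
  have hstep : ∀ (k : ℕ) (t : {t : ℝ // P t}), ∃ t' : {t : ℝ // P t}, t'.1 < t.1 ∧
      ∀ x : Fin n → M, valA f x < t.1 → ∃ y : Fin n → M, valA f y < t'.1 ∧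
        dist x y < (1 / 2) * (1 / 2 : ℝ) ^ k := by
    rintro k ⟨t, ht1, ht2, ht3⟩
    obtain ⟨s, hs, h⟩ := ht3 ((1 / 2) * (1 / 2 : ℝ) ^ k) (by positivity)
    obtain ⟨t', h1, h2, h3⟩ := exists_good hsep f (max_lt hs ht1)
    refine ⟨⟨t', (le_max_right _ _).trans_lt h1, h2.trans ht2, h3⟩, h2, fun x hx => ?_⟩
    obtain ⟨y, hy1, hy2⟩ := h x hx
    exact ⟨y, hy1.trans ((le_max_left _ _).trans_lt h1), hy2⟩
  choose next hnext1 hnext2 using hstep
  let τ : ℕ → {t : ℝ // P t} := fun k => Nat.rec ⟨t0, h01, h02, h03⟩ (fun k t => next k t) k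
  have hτ0 : (τ 0).1 = t0 := rfl
  have hτs : ∀ k, τ (k + 1) = next k (τ k) := fun k => rfl
  have hlt : ∀ k, (τ (k + 1)).1 < (τ k).1 := fun k => by rw [hτs]; exact hnext1 k _
  have hmov : ∀ (k : ℕ) (x : Fin n → M), valA f x < (τ k).1 → ∃ y : Fin n → M,
      valA f y < (τ (k + 1)).1 ∧ dist x y < (1 / 2) * (1 / 2 : ℝ) ^ k := fun k x hx => by
    rw [hτs]; exact hnext2 k _ x hx
  have hanti : Antitone fun k => (τ k).1 := antitone_nat_of_succ_le fun k => (hlt k).le
  let D : Set (Fin n → M) := {x | ∀ k, valA f x ≤ (τ k).1}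
  have hDlt : ∀ x ∈ D, ∀ k, valA f x < (τ k).1 := fun x hx k => (hx (k + 1)).trans_lt (hlt k)
  have hDcl : IsClosed D := by
    have : D = ⋂ k, {x | valA f x ≤ (τ k).1} := by
      ext x
      simp [D]
    rw [this]
    exact isClosed_iInter fun k => isClosed_le (continuous_valA f) continuous_const
  -- points of the level sets are close to `D`
  have hclose : ∀ (k : ℕ) (x : Fin n → M), valA f x < (τ k).1 → ∃ y ∈ D,
      dist x y ≤ (1 / 2 : ℝ) ^ k := by
    intro k x hx
    have hm : ∀ (j : ℕ) (y : {y : Fin n → M // valA f y < (τ (k + j)).1}),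
        ∃ y' : {y : Fin n → M // valA f y < (τ (k + (j + 1))).1},
          dist y.1 y'.1 < (1 / 2) * (1 / 2 : ℝ) ^ (k + j) := by
      rintro j ⟨y, hy⟩
      obtain ⟨y', h1, h2⟩ := hmov (k + j) y hy
      exact ⟨⟨y', h1⟩, h2⟩
    choose g hg using hm
    let y : (j : ℕ) → {y : Fin n → M // valA f y < (τ (k + j)).1} :=
      fun j => Nat.rec ⟨x, hx⟩ (fun j y => g j y) j
    have hy0 : (y 0).1 = x := rfl
    have hys : ∀ j, y (j + 1) = g j (y j) := fun j => rfl
    have hd : ∀ j, dist (y j).1 (y (j + 1)).1 ≤ ((1 / 2 : ℝ) ^ k / 2) / 2 ^ j := fun j => by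
      rw [hys]
      refine (hg j (y j)).le.trans (le_of_eq ?_)
      rw [pow_add]
      simp only [one_div, inv_pow]
      field_simp
    have hcau : CauchySeq fun j => (y j).1 := cauchySeq_of_le_geometric_two hd
    obtain ⟨z, hz⟩ := cauchySeq_tendsto_of_complete hcau
    have hdist := dist_le_of_le_geometric_two_of_tendsto₀ hd hz
    refine ⟨z, fun m => ?_, ?_⟩
    · have h1 : Tendsto (fun j => valA f (y j).1) atTop (𝓝 (valA f z)) :=
        ((continuous_valA f).tendsto z).comp hz
      refine le_of_tendsto h1 ?_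
      filter_upwards [eventually_ge_atTop m] with j hj
      exact (y j).2.le.trans (hanti (hj.trans (Nat.le_add_left j k)))
    · rw [hy0] at hdist
      linarith
  have hDne : D.Nonempty := by
    obtain ⟨x, hx⟩ := hf (τ 0).1 (τ 0).2.1
    obtain ⟨y, hy, -⟩ := hclose 0 x hx
    exact ⟨y, hy⟩
  refine ⟨D, ⟨hDcl, fun ε hε => ?_⟩, fun x hx k => hx.trans (τ k).2.1.le, fun x hx =>
    (hDlt x hx 0).trans (τ 0).2.2.1⟩
  obtain ⟨k, hk⟩ := exists_pow_lt_of_lt_one hε (by norm_num : (1 / 2 : ℝ) < 1)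
  have hgap : 0 < (τ k).1 - (τ (k + 1)).1 := sub_pos.2 (hlt k)
  refine ⟨pen f (1 / ((τ k).1 - (τ (k + 1)).1)) (τ (k + 1)).1, fun x => ?_⟩
  have hsd : setDist x D = Metric.infDist x D := by rw [setDist, if_pos hDne]
  change |setDist x D - _| ≤ ε
  rw [hsd, abs_le]
  have hN : 0 < 1 / ((τ k).1 - (τ (k + 1)).1) := one_div_pos.2 hgap
  constructor
  · -- `pen ≤ dist + ε`
    have h1 : valA (pen f (1 / ((τ k).1 - (τ (k + 1)).1)) (τ (k + 1)).1) x ≤
        Metric.infDist x D := by
      rw [Metric.le_infDist hDne]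
      intro y hy
      refine (pen_le f _ _ M x y Subtype.val).trans ((min_le_right _ _).trans ?_)
      have h2 : f.eval M (Sum.elim y Subtype.val) ≤ (τ (k + 1)).1 := hy (k + 1)
      rw [max_eq_left (by linarith), mul_zero, add_zero]
    linarith
  · have h1 : Metric.infDist x D - (1 / 2 : ℝ) ^ k ≤
        valA (pen f (1 / ((τ k).1 - (τ (k + 1)).1)) (τ (k + 1)).1) x := by
      refine le_pen f _ _ M x _ fun z => ?_
      have hp : (0 : ℝ) < (1 / 2 : ℝ) ^ k := by positivity
      have hle1 : Metric.infDist x D ≤ 1 := by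
        obtain ⟨y, hy⟩ := hDne
        exact (Metric.infDist_le_dist_of_mem hy).trans (tuple_dist_le_one x y)
      rw [le_min_iff]
      refine ⟨by linarith, ?_⟩
      rcases lt_or_ge (valA f z) (τ k).1 with hz | hz
      · obtain ⟨y, hy1, hy2⟩ := hclose k z hz
        have h3 : Metric.infDist x D ≤ dist x y := Metric.infDist_le_dist_of_mem hy1
        have h4 := dist_triangle x z y
        have h5 : 0 ≤ 1 / ((τ k).1 - (τ (k + 1)).1) *
            max 0 (f.eval M (Sum.elim z Subtype.val) - (τ (k + 1)).1) :=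
          mul_nonneg hN.le (le_max_left _ _)
        linarith
      · have h4 : (τ k).1 - (τ (k + 1)).1 ≤
            max 0 (f.eval M (Sum.elim z Subtype.val) - (τ (k + 1)).1) := by
          refine le_trans ?_ (le_max_right _ _)
          have : valA f z = f.eval M (Sum.elim z Subtype.val) := rfl
          linarith
        have h5 : 1 ≤ 1 / ((τ k).1 - (τ (k + 1)).1) *
            max 0 (f.eval M (Sum.elim z Subtype.val) - (τ (k + 1)).1) := by
          calc (1 : ℝ) = 1 / ((τ k).1 - (τ (k + 1)).1) * ((τ k).1 - (τ (k + 1)).1) := by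
                rw [one_div, inv_mul_cancel₀ hgap.ne']
            _ ≤ _ := mul_le_mul_of_nonneg_left h4 hN.le
        have h6 : (0 : ℝ) ≤ dist x z := dist_nonneg
        linarith
    linarith

end Levels

/-- Definable predicates over a set are definable over each larger set. -/
lemma DefinablePred.mono {M : Str.{w, u} L} {A A' : Set M} (h : A ⊆ A') {n : ℕ}
    {P : (Fin n → M) → ℝ} (hP : DefinablePred M A n P) : DefinablePred M A' n P := by
  intro ε hε
  obtain ⟨φ, hφ⟩ := hP ε hε
  refine ⟨φ.relabel (Sum.map id (Set.inclusion h)), fun x => ?_⟩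
  have : valA (φ.relabel (Sum.map id (Set.inclusion h))) x = valA φ x := by
    rw [valA, Formula.eval_relabel, valA]
    refine congrArg _ (funext fun o => ?_)
    rcases o with i | a <;> rfl
  rw [this]
  exact hφ x

/-- The connective `|r - a| * N`. -/
noncomputable def absC (a N : ℝ) : C(Fin 1 → ℝ, ℝ) where
  toFun r := |r 0 - a| * N
  continuous_toFun := by fun_prop

/-- Every `ℵ₀`-stable continuous theory has enough d-definable sets. -/
theorem enough_of_aleph0Stable (T : Theory.{w, u} L) (hT : Aleph0Stable T) :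
    EnoughDDefinable T := by
  intro M hM A n p
  refine ⟨{D | DDefinable M A n D ∧ p.real ⊆ D}, fun D hD => hD.1, ?_⟩
  refine Set.Subset.antisymm (Set.subset_sInter fun D hD => hD.2) fun x0 hx0 => ?_
  by_contra hcon
  obtain ⟨φ, hφ⟩ : ∃ φ : Formula L (Fin n ⊕ A), valA φ x0 ≠ p.val φ := by
    by_contra hall
    push Not at hall
    exact hcon hall
  set N : ℝ := 1 / |valA φ x0 - p.val φ| with hN
  have habs : 0 < |valA φ x0 - p.val φ| := abs_pos.2 (sub_ne_zero.2 hφ)
  have hN0 : 0 < N := one_div_pos.2 habs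
  let f : Formula L (Fin n ⊕ A) := .conn (absC (p.val φ) N) fun _ => φ
  have hfval : ∀ x, valA f x = |valA φ x - p.val φ| * N := fun x => rfl
  obtain ⟨A0, hfin, hsub, f0, hf0⟩ := exists_finite_params f
  obtain ⟨D, hD1, hD2, hD3⟩ := exists_ddefinable (hT M hM A0 hfin.countable n) f0 (by
    intro η hη
    obtain ⟨x, hx⟩ := p.approx {φ} (η / N) (div_pos hη hN0)
    refine ⟨x, ?_⟩
    rw [hf0, hfval]
    have := hx φ (Finset.mem_singleton_self φ)
    rwa [lt_div_iff₀ hN0] at this)
  have hmem : D ∈ {D | DDefinable M A n D ∧ p.real ⊆ D} := by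
    refine ⟨⟨hD1.1, hD1.2.mono hsub⟩, fun x hx => hD2 x ?_⟩
    rw [hf0, hfval, hx φ]
    simp
  have h1 := hD3 x0 (Set.mem_sInter.1 hx0 D hmem)
  rw [hf0, hfval, hN, mul_one_div, div_self habs.ne'] at h1
  exact lt_irrefl _ h1

end Pool.Agent.K1H65.CL
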