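import Pool.Agent.K1H65.CL.StableEx
import Pool.Agent.K1H65.CL.Enough

/-! Counting types in structures with a discrete metric and one unary predicate. -/

set_option autoImplicit false

universe u

open Filter Topology Cardinal

namespace Pool.Agent.K1H65.CL

section

variable {K : Str.{0, u} sig} {A : Set K} {n : ℕ}

/-- The formula `P(x_i)`. -/
def fP (i : Fin n) : Formula sig (Fin n ⊕ A) := .rel () fun _ => .var (Sum.inl i)

/-- The formula `d(x_i, x_j)`. -/
def fD (i j : Fin n) : Formula sig (Fin n ⊕ A) := .dist (.var (Sum.inl i)) (.var (Sum.inl j))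

/-- The formula `d(x_i, a)`. -/
def fA (i : Fin n) (a : A) : Formula sig (Fin n ⊕ A) := .dist (.var (Sum.inl i)) (.var (Sum.inr a))

lemma valA_fP (x : Fin n → K) (i : Fin n) : valA (fP (A := A) i) x = prd K (x i) := rfl

lemma valA_fD (x : Fin n → K) (i j : Fin n) : valA (fD (A := A) i j) x = dist (x i) (x j) := rfl

lemma valA_fA (x : Fin n → K) (i : Fin n) (a : A) : valA (fA i a) x = dist (x i) a.1 := rfl

/-- The basic data of a type: the values of the predicate, the equalities between the variables, and
the parameters to which the variables are equal. -/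
noncomputable def data (p : CType K A n) : (Fin n → ℝ) × (Fin n → Fin n → Prop) ×
    (Fin n → Option A) :=
  open Classical in
  (fun i => p.val (fP i), fun i j => p.val (fD i j) < 1 / 2,
    fun i => if h : ∃ a : A, p.val (fA i a) < 1 / 2 then some h.choose else none)

lemma disc_lt_iff (hK : Disc K) {x y : K} {r ε : ℝ} (hε : ε ≤ 1 / 4) (h : |dist x y - r| < ε) :
    x = y ↔ r < 1 / 2 := by
  rw [abs_lt] at h
  constructor
  · intro hxy
    rw [hxy, dist_self] at h
    linarith [h.1]
  · intro hr
    by_contra hne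
    rw [hK x y hne] at h
    linarith [h.2]

/-- A type is determined by its basic data. -/
lemma data_injective (hK : Disc K) : Function.Injective (data (K := K) (A := A) (n := n)) := by
  classical
  intro p q hpq
  have hP : ∀ i, p.val (fP i) = q.val (fP i) := fun i => congrFun (congrArg Prod.fst hpq) i
  have hD : ∀ i j, (p.val (fD i j) < 1 / 2) ↔ (q.val (fD i j) < 1 / 2) := fun i j =>
    iff_of_eq (congrFun (congrFun (congrArg (fun s => s.2.1) hpq) i) j)
  -- the parameters
  have huniq : ∀ (p : CType K A n) (i : Fin n) (a b : A), p.val (fA i a) < 1 / 2 →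
      p.val (fA i b) < 1 / 2 → a = b := by
    intro p i a b ha hb
    obtain ⟨x, hx⟩ := p.approx {fA i a, fA i b} (1 / 4) (by norm_num)
    have h1 := hx (fA i a) (by simp)
    have h2 := hx (fA i b) (by simp)
    rw [valA_fA] at h1 h2
    exact Subtype.ext (((disc_lt_iff hK le_rfl h1).2 ha).symm.trans
      ((disc_lt_iff hK le_rfl h2).2 hb))
  have hA : ∀ i a, (p.val (fA i a) < 1 / 2) ↔ (q.val (fA i a) < 1 / 2) := by
    have key : ∀ p q : CType K A n, (data p).2.2 = (data q).2.2 → ∀ i a,
        (p.val (fA i a) < 1 / 2) → (q.val (fA i a) < 1 / 2) := by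
      intro p q hpq i a h
      have h1 := congrFun hpq i
      have hex : ∃ a : A, p.val (fA i a) < 1 / 2 := ⟨a, h⟩
      simp only [data] at h1
      rw [dif_pos hex] at h1
      by_cases hex' : ∃ a : A, q.val (fA i a) < 1 / 2
      · rw [dif_pos hex', Option.some.injEq] at h1
        have h2 : hex.choose = a := huniq p i _ _ hex.choose_spec h
        have h3 := hex'.choose_spec
        rw [← h1, h2] at h3
        exact h3
      · rw [dif_neg hex'] at h1
        exact (Option.some_ne_none _ h1).elim
    have h2 : (data p).2.2 = (data q).2.2 := congrArg (fun s => s.2.2) hpq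
    exact fun i a => ⟨key p q h2 i a, key q p h2.symm i a⟩
  have hval : ∀ φ, p.val φ = q.val φ := by
    intro φ
    refine eq_of_forall_dist_le fun ε hε => ?_
    obtain ⟨S, hS, φ', hφ'⟩ := φ.exists_finite
    obtain ⟨δ, hδ, H⟩ := approx_aut φ' (ε / 3) (by positivity)
    let T : Finset (Fin n ⊕ A) := hS.toFinset
    -- the accuracy
    have hpow : (0 : ℝ) < 2 ^ T.card := by positivity
    set η : ℝ := min (min (1 / 4) (ε / 3)) (δ / 2 ^ T.card / 2) with hη
    have hη0 : 0 < η := by
      refine lt_min (lt_min (by norm_num) (by positivity)) (by positivity)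
    have hη1 : η ≤ 1 / 4 := (min_le_left _ _).trans (min_le_left _ _)
    have hη2 : η ≤ ε / 3 := (min_le_left _ _).trans (min_le_right _ _)
    have hη3 : η ≤ δ / 2 ^ T.card / 2 := min_le_right _ _
    -- the formulas which matter
    let F : Finset (Formula sig (Fin n ⊕ A)) :=
      insert φ ((Finset.univ.image fun i => fP i) ∪ (Finset.univ.image fun s : Fin n × Fin n =>
        fD s.1 s.2) ∪ (Finset.univ.biUnion fun i : Fin n => T.biUnion fun t => match t with
          | Sum.inl _ => ∅
          | Sum.inr a => {fA i a}))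
    obtain ⟨x, hx⟩ := p.approx F η hη0
    obtain ⟨y, hy⟩ := q.approx F η hη0
    have mP : ∀ i, fP i ∈ F := fun i => by simp [F]
    have mD : ∀ i j, fD i j ∈ F := fun i j => by simp [F]
    have mφ : φ ∈ F := by simp [F]
    have mA : ∀ (i : Fin n) (a : A), (Sum.inr a : Fin n ⊕ A) ∈ S → fA i a ∈ F := by
      intro i a ha
      refine Finset.mem_insert_of_mem (Finset.mem_union_right _ ?_)
      refine Finset.mem_biUnion.2 ⟨i, Finset.mem_univ i, ?_⟩
      refine Finset.mem_biUnion.2 ⟨Sum.inr a, hS.mem_toFinset.2 ha, ?_⟩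
      simp
    -- the two assignments
    let c : S → K := fun s => Sum.elim x Subtype.val s.1
    let c' : S → K := fun s => Sum.elim y Subtype.val s.1
    have hpat : ∀ s t : S, c s = c t ↔ c' s = c' t := by
      rintro ⟨i | a, hs⟩ ⟨j | b, ht⟩
      · have h1 := hx _ (mD i j)
        have h2 := hy _ (mD i j)
        rw [valA_fD] at h1 h2
        exact (disc_lt_iff hK hη1 h1).trans ((hD i j).trans (disc_lt_iff hK hη1 h2).symm)
      · have h1 := hx _ (mA i b ht)
        have h2 := hy _ (mA i b ht)
        rw [valA_fA] at h1 h2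
        exact (disc_lt_iff hK hη1 h1).trans ((hA i b).trans (disc_lt_iff hK hη1 h2).symm)
      · have h1 := hx _ (mA j a hs)
        have h2 := hy _ (mA j a hs)
        rw [valA_fA] at h1 h2
        rw [eq_comm, eq_comm (a := c' _)]
        exact (disc_lt_iff hK hη1 h1).trans ((hA j a).trans (disc_lt_iff hK hη1 h2).symm)
      · exact Iff.rfl
    have hPc : ∀ s : S, |prd K (c' s) - prd K (c s)| ≤ δ / 2 ^ T.card := by
      rintro ⟨i | a, hs⟩
      · have h1 := hx _ (mP i)
        have h2 := hy _ (mP i)
        rw [valA_fP] at h1 h2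
        rw [hP i] at h1
        change |prd K (y i) - prd K (x i)| ≤ _
        rw [abs_lt] at h1 h2
        rw [abs_le]
        constructor <;> linarith [h1.1, h1.2, h2.1, h2.2]
      · change |prd K a.1 - prd K a.1| ≤ _
        rw [sub_self, abs_zero]
        positivity
    have : Fintype S := hS.fintype
    obtain ⟨σ, hσ1, hσ2⟩ := exists_equiv (prd K) (δ := δ / 2 ^ T.card) (by positivity) c c' hpat
      hPc Finset.univ
    have hcard : (Finset.univ : Finset S).card = T.card := by
      rw [Finset.card_univ, ← Set.toFinset_card]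
      exact congrArg _ (Set.Finite.toFinset_eq_toFinset hS).symm
    have h1 := H K hK σ (fun z => (hσ2 z).trans (by
      rw [hcard, mul_div_assoc', div_le_iff₀ hpow]
      nlinarith)) c
    have h2 : σ ∘ c = c' := funext fun s => hσ1 s (Finset.mem_univ s)
    rw [h2] at h1
    have h3 : φ'.eval K c = valA φ x := (hφ' K _).symm
    have h4 : φ'.eval K c' = valA φ y := (hφ' K _).symm
    rw [h3, h4] at h1
    have h5 := hx φ mφ
    have h6 := hy φ mφ
    rw [Real.dist_eq]
    rw [abs_lt] at h5 h6
    rw [abs_le] at h1 ⊢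
    constructor <;> linarith [h1.1, h1.2, h5.1, h5.2, h6.1, h6.2]
  cases p
  cases q
  congr
  exact funext hval

/-- The number of types over a set. -/
theorem card_types_le (hK : Disc K) (A : Set K) (n : ℕ) :
    #(CType K A n) ≤ lift.{u + 1} (max #A 𝔠) := by
  classical
  have h0 := lift_mk_le_lift_mk_of_injective (data_injective (A := A) (n := n) hK)
  rw [lift_id'.{u, u + 1}] at h0
  refine h0.trans (lift_le.2 ?_)
  have hc : ℵ₀ ≤ (𝔠 : Cardinal.{u}) := aleph0_le_continuum
  have hm : ℵ₀ ≤ max #A 𝔠 := hc.trans (le_max_right _ _)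
  have h1 : lift.{u} #(Fin n → ℝ) ≤ max #A 𝔠 := by
    have : #(Fin n → ℝ) ≤ 𝔠 := by
      rw [← power_def, mk_real, mk_fin]
      exact power_nat_le aleph0_le_continuum
    refine (lift_le.2 this).trans ?_
    rw [lift_continuum]
    exact le_max_right _ _
  have h2 : lift.{u} #(Fin n → Fin n → Prop) ≤ max #A 𝔠 := by
    have : #(Fin n → Fin n → Prop) < ℵ₀ := lt_aleph0_of_finite _
    have h3 : lift.{u} #(Fin n → Fin n → Prop) < ℵ₀ := by
      rw [lift_lt_aleph0]
      exact this
    exact h3.le.trans hm
  have h3 : #(Fin n → Option A) ≤ max #A 𝔠 := by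
    have h4 : #(Option A) ≤ max #A 𝔠 := by
      rw [mk_option]
      exact add_le_of_le hm (le_max_left _ _) (one_le_aleph0.trans hm)
    have h5 : #(Fin n → Option A) = #(Option A) ^ (n : Cardinal.{u}) := by
      rw [mk_arrow, mk_fin]
      simp
    rw [h5, power_natCast]
    exact (pow_le_pow_left' h4 n).trans (by
      rw [← power_natCast]
      exact power_nat_le hm)
  have h6 : #((Fin n → ℝ) × (Fin n → Fin n → Prop) × (Fin n → Option A)) =
      lift.{u} #(Fin n → ℝ) * (lift.{u} #(Fin n → Fin n → Prop) * #(Fin n → Option A)) := by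
    simp only [mk_prod, lift_id']
  rw [h6]
  exact (mul_le_mul' h1 (mul_le_mul' h2 h3)).trans (by
    rw [mul_eq_self hm, mul_eq_self hm])

end

end Pool.Agent.K1H65.CL
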