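import Pool.Agent.K1H65.CL.Basic

/-! A stable continuous theory without enough d-definable sets. -/

set_option autoImplicit false

universe w u

open Filter Topology

namespace Pool.Agent.K1H65.CL

/-- The signature with one unary predicate symbol `P`. -/
def sig : Signature.{0} where
  Fn := Empty
  fnArity := Empty.elim
  fnMod := fun f => f.elim
  fnMod_pos := fun f => f.elim
  Rel := Unit
  relArity := fun _ => 1
  relMod := fun _ _ => 1
  relMod_pos := fun _ _ _ => one_pos

/-- The predicate of a structure. -/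
def prd (K : Str.{0, u} sig) (x : K) : ℝ := K.rel () fun _ => x

/-- The metric of the structure is discrete. -/
def Disc (K : Str.{0, u} sig) : Prop := ∀ x y : K, x ≠ y → dist x y = 1

lemma term_var {V : Type u} (t : Term sig V) : ∃ x, t = .var x := by
  cases t with
  | var x => exact ⟨x, rfl⟩
  | app f ts => exact f.elim

lemma term_map (K : Str.{0, u} sig) {V : Type u} (t : Term sig V) (v : V → K) (σ : K → K) :
    t.eval K (σ ∘ v) = σ (t.eval K v) := by
  obtain ⟨x, rfl⟩ := term_var t
  rfl

/-- A bijection which moves the values of the predicate only a little moves the values of a formula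
only a little. -/
lemma approx_aut {V : Type u} (φ : Formula sig V) : ∀ ε : ℝ, 0 < ε → ∃ δ : ℝ, 0 < δ ∧
    ∀ K : Str.{0, u} sig, Disc K → ∀ σ : K ≃ K, (∀ x, |prd K (σ x) - prd K x| ≤ δ) →
      ∀ v : V → K, |φ.eval K (σ ∘ v) - φ.eval K v| ≤ ε := by
  induction φ with
  | dist s t =>
    intro ε hε
    refine ⟨1, one_pos, fun K hK σ hσ v => ?_⟩
    have : Dist.dist (s.eval K (σ ∘ v)) (t.eval K (σ ∘ v)) =
        Dist.dist (s.eval K v) (t.eval K v) := by
      rw [term_map, term_map]
      by_cases h : s.eval K v = t.eval K v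
      · rw [h]
        simp
      · rw [hK _ _ h, hK _ _ (fun h' => h (σ.injective h'))]
    simp only [Formula.eval, this, sub_self, abs_zero]
    exact hε.le
  | rel R ts =>
    intro ε hε
    refine ⟨ε, hε, fun K hK σ hσ v => ?_⟩
    have h1 : ∀ v : _ → K, (Formula.rel R ts).eval K v = prd K ((ts (0 : Fin 1)).eval K v) := by
      intro v
      simp only [Formula.eval, prd]
      refine congrArg _ (funext fun i => ?_)
      have : i = (0 : Fin 1) := Subsingleton.elim (α := Fin 1) _ _
      rw [this]
    rw [h1, h1, term_map]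
    exact hσ _
  | @conn V k c φ ih =>
    intro ε hε
    choose B hB using fun i => (φ i).bounded
    obtain ⟨η, hη, H⟩ := conn_unif c B hε
    choose δ hδ h using fun i => ih i η hη
    obtain ⟨d, hd, hdi⟩ : ∃ d : ℝ, 0 < d ∧ ∀ i, d ≤ δ i := by
      rcases isEmpty_or_nonempty (Fin k) with he | he
      · exact ⟨1, one_pos, fun i => (he.false i).elim⟩
      · obtain ⟨i0, hi0⟩ := Finite.exists_min δ
        exact ⟨δ i0, hδ i0, hi0⟩
    refine ⟨d, hd, fun K hK σ hσ v => ?_⟩
    exact H _ _ (fun i => hB i K _) (fun i => hB i K _)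
      fun i => h i K hK σ (fun x => (hσ x).trans (hdi i)) v
  | sup φ ih =>
    intro ε hε
    obtain ⟨δ, hδ, h⟩ := ih ε hε
    refine ⟨δ, hδ, fun K hK σ hσ v => ?_⟩
    have h1 : (⨆ x : K, φ.eval K fun o => o.elim x (σ ∘ v)) =
        ⨆ x : K, φ.eval K (σ ∘ fun o => o.elim x v) := by
      rw [← Equiv.iSup_comp σ]
      refine congrArg _ (funext fun x => congrArg _ (funext fun o => ?_))
      cases o <;> rfl
    simp only [Formula.eval]
    rw [h1]
    refine abs_ciSup_sub_le ?_ (φ.bddAbove K v) fun x => h K hK σ hσ _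
    obtain ⟨B, hB⟩ := φ.bounded
    exact ⟨B, by rintro _ ⟨x, rfl⟩; exact (abs_le.1 (hB K _)).2⟩
  | inf φ ih =>
    intro ε hε
    obtain ⟨δ, hδ, h⟩ := ih ε hε
    refine ⟨δ, hδ, fun K hK σ hσ v => ?_⟩
    have h1 : (⨅ x : K, φ.eval K fun o => o.elim x (σ ∘ v)) =
        ⨅ x : K, φ.eval K (σ ∘ fun o => o.elim x v) := by
      rw [← Equiv.iInf_comp σ]
      refine congrArg _ (funext fun x => congrArg _ (funext fun o => ?_))
      cases o <;> rfl
    simp only [Formula.eval]
    rw [h1]
    refine abs_ciInf_sub_le ?_ (φ.bddBelow K v) fun x => h K hK σ hσ _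
    obtain ⟨B, hB⟩ := φ.bounded
    exact ⟨-B, by rintro _ ⟨x, rfl⟩; exact (abs_le.1 (hB K _)).1⟩

/-- A finite map which preserves and reflects equality and moves a function `P` at most by `δ`
extends to a bijection which moves `P` only a little. -/
lemma exists_equiv {K : Type u} {V : Type*} (P : K → ℝ) {δ : ℝ} (hδ : 0 ≤ δ) (c c' : V → K)
    (hcc : ∀ s t, c s = c t ↔ c' s = c' t) (hP : ∀ s, |P (c' s) - P (c s)| ≤ δ)
    (S : Finset V) : ∃ σ : K ≃ K, (∀ s ∈ S, σ (c s) = c' s) ∧
      ∀ x, |P (σ x) - P x| ≤ (2 ^ S.card - 1) * δ := by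
  classical
  induction S using Finset.induction_on with
  | empty => exact ⟨Equiv.refl K, by simp, by simp⟩
  | insert v S hv ih =>
    obtain ⟨σ, h1, h2⟩ := ih
    rw [Finset.card_insert_of_notMem hv]
    have hpow : (2 ^ S.card - 1 : ℝ) * δ ≤ (2 ^ (S.card + 1) - 1) * δ := by
      refine mul_le_mul_of_nonneg_right ?_ hδ
      rw [pow_succ]
      have : (0 : ℝ) < 2 ^ S.card := by positivity
      linarith
    by_cases hex : ∃ s ∈ S, c v = c s
    · obtain ⟨s, hs, hcs⟩ := hex
      refine ⟨σ, fun t ht => ?_, fun x => (h2 x).trans hpow⟩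
      rcases Finset.mem_insert.1 ht with rfl | ht
      · rw [hcs, h1 s hs]
        exact ((hcc t s).1 hcs).symm
      · exact h1 t ht
    · push Not at hex
      refine ⟨σ.trans (Equiv.swap (σ (c v)) (c' v)), fun t ht => ?_, fun x => ?_⟩
      · rcases Finset.mem_insert.1 ht with rfl | ht
        · simp
        · rw [Equiv.trans_apply, h1 t ht]
          refine Equiv.swap_apply_of_ne_of_ne ?_ ?_
          · rw [← h1 t ht]
            exact fun h => hex t ht (σ.injective h).symm
          · exact fun h => hex t ht ((hcc v t).2 h.symm)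
      · have h3 : ∀ y, |P (Equiv.swap (σ (c v)) (c' v) y) - P y| ≤ |P (σ (c v)) - P (c' v)| := by
          intro y
          by_cases hy1 : y = σ (c v)
          · rw [hy1, Equiv.swap_apply_left, abs_sub_comm]
          · by_cases hy2 : y = c' v
            · rw [hy2, Equiv.swap_apply_right]
            · rw [Equiv.swap_apply_of_ne_of_ne hy1 hy2, sub_self, abs_zero]
              exact abs_nonneg _
        have h4 := h3 (σ x)
        have h5 := h2 x
        have h6 := h2 (c v)
        have h7 := hP v
        rw [Equiv.trans_apply]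
        have h8 : |P (σ (c v)) - P (c' v)| ≤ (2 ^ S.card - 1) * δ + δ := by
          calc |P (σ (c v)) - P (c' v)| = |(P (σ (c v)) - P (c v)) + -(P (c' v) - P (c v))| := by
                ring_nf
            _ ≤ |P (σ (c v)) - P (c v)| + |-(P (c' v) - P (c v))| := abs_add_le _ _
            _ ≤ _ := by rw [abs_neg]; exact add_le_add h6 h7
        calc |P (Equiv.swap (σ (c v)) (c' v) (σ x)) - P x|
            = |(P (Equiv.swap (σ (c v)) (c' v) (σ x)) - P (σ x)) + (P (σ x) - P x)| := by ring_nf
          _ ≤ |P (Equiv.swap (σ (c v)) (c' v) (σ x)) - P (σ x)| + |P (σ x) - P x| := abs_add_le _ _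
          _ ≤ ((2 ^ S.card - 1) * δ + δ) + (2 ^ S.card - 1) * δ :=
              add_le_add (h4.trans h8) h5
          _ = (2 ^ (S.card + 1) - 1) * δ := by rw [pow_succ]; ring

/-- Every sequence of tuples has a subsequence whose coordinates are constant or injective. -/
lemma exists_subseq {K : Type u} {N : ℕ} (d : ℕ → Fin N → K) (S : Finset (Fin N)) :
    ∃ g : ℕ → ℕ, StrictMono g ∧ ∀ k ∈ S, (∀ i j, i < j → d (g i) k = d (g j) k) ∨
      ∀ i j, i < j → d (g i) k ≠ d (g j) k := by
  classical
  induction S using Finset.induction_on with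
  | empty => exact ⟨id, strictMono_id, by simp⟩
  | insert v S hv ih =>
    obtain ⟨g, hg, h⟩ := ih
    obtain ⟨g', hg'⟩ := exists_increasing_or_nonincreasing_subseq (· = ·) fun i => d (g i) v
    refine ⟨g ∘ g', hg.comp g'.strictMono, fun k hk => ?_⟩
    rcases Finset.mem_insert.1 hk with rfl | hk
    · exact hg'
    · rcases h k hk with h1 | h1
      · exact Or.inl fun i j hij => h1 _ _ (g'.strictMono hij)
      · exact Or.inr fun i j hij => h1 _ _ (g'.strictMono hij)

lemma exists_color {C : Type*} [Finite C] (col : ℕ → C) :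
    ∃ g : ℕ → ℕ, StrictMono g ∧ ∀ i j, col (g i) = col (g j) := by
  classical
  obtain ⟨y, hy⟩ := Finite.exists_infinite_fiber col
  have : Infinite (col ⁻¹' {y}) := hy
  refine ⟨Nat.orderEmbeddingOfSet (col ⁻¹' {y}), OrderEmbedding.strictMono _, fun i j => ?_⟩
  have h1 : ∀ i, col (Nat.orderEmbeddingOfSet (col ⁻¹' {y}) i) = y :=
    fun i => (Nat.Subtype.ofNat (col ⁻¹' {y}) i).2
  rw [h1, h1]

/-- No formula has the order property in a structure with discrete metric. -/
theorem disc_stable (K : Str.{0, u} sig) (hK : Disc K) (n m : ℕ)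
    (φ : Formula sig (ULift.{u} (Fin n ⊕ Fin m))) : ¬ OrderProperty K φ := by
  classical
  rintro ⟨ε, hε, a, b, hab⟩
  obtain ⟨δ, hδ, H⟩ := approx_aut φ (ε / 2) (half_pos hε)
  -- the accuracy
  obtain ⟨q, hq⟩ := exists_nat_gt (2 ^ (n + m) / δ)
  have hq0 : 0 < (q : ℝ) := lt_trans (by positivity) hq
  have hP : ∀ x : K, 0 ≤ prd K x ∧ prd K x ≤ 1 := fun x => ⟨K.rel_nonneg _ _, K.rel_le_one _ _⟩
  let fl : K → Fin (q + 1) := fun x => ⟨⌊prd K x * q⌋₊, by
    have h1 : prd K x * q ≤ q := by nlinarith [(hP x).2]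
    have h2 : ⌊prd K x * q⌋₊ ≤ q := by
      refine (Nat.floor_mono h1).trans ?_
      rw [Nat.floor_natCast]
    omega⟩
  have hfl : ∀ x y : K, fl x = fl y → |prd K x - prd K y| ≤ 1 / q := by
    intro x y hxy
    have h1 : ⌊prd K x * q⌋₊ = ⌊prd K y * q⌋₊ := congrArg Fin.val hxy
    have h2 := Nat.floor_le (mul_nonneg (hP x).1 hq0.le)
    have h3 := Nat.floor_le (mul_nonneg (hP y).1 hq0.le)
    have h4 := Nat.lt_floor_add_one (prd K x * q)
    have h5 := Nat.lt_floor_add_one (prd K y * q)
    rw [h1] at h2 h4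
    have h6 : |prd K x * q - prd K y * q| ≤ 1 := by
      rw [abs_le]
      constructor <;> linarith
    have h7 : |prd K x - prd K y| * q ≤ 1 := by
      rw [← sub_mul, abs_mul, abs_of_pos hq0] at h6
      exact h6
    rwa [le_div_iff₀ hq0]
  -- first extraction
  obtain ⟨g1, hg1, hc⟩ := exists_color fun i : ℕ =>
    ((fun k => fl (a i k), fun k => fl (b i k)),
      ((fun k l => decide (a i k = a i l) : Fin n → Fin n → Bool),
        (fun k l => decide (b i k = b i l) : Fin m → Fin m → Bool)))
  -- second extraction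
  obtain ⟨g2, hg2, ha⟩ := exists_subseq (fun i => a (g1 i)) Finset.univ
  obtain ⟨g3, hg3, hb⟩ := exists_subseq (fun i => b (g1 (g2 i))) Finset.univ
  let A : ℕ → Fin n → K := fun i => a (g1 (g2 (g3 i)))
  let B : ℕ → Fin m → K := fun i => b (g1 (g2 (g3 i)))
  have hmono : StrictMono fun i => g1 (g2 (g3 i)) := hg1.comp (hg2.comp hg3)
  have hA : ∀ k, (∀ i j, i < j → A i k = A j k) ∨ ∀ i j, i < j → A i k ≠ A j k := by
    intro k
    rcases ha k (Finset.mem_univ k) with h | h
    · exact Or.inl fun i j hij => h _ _ (hg3 hij)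
    · exact Or.inr fun i j hij => h _ _ (hg3 hij)
  have hB : ∀ k, (∀ i j, i < j → B i k = B j k) ∨ ∀ i j, i < j → B i k ≠ B j k :=
    fun k => hb k (Finset.mem_univ k)
  have hcol := fun i j => hc (g2 (g3 i)) (g2 (g3 j))
  simp only [Prod.mk.injEq] at hcol
  -- constants do not hit injective coordinates, up to finitely many indices
  have hfinB : ∀ (l : Fin m), (∀ i j, i < j → B i l ≠ B j l) → ∀ c : K, {i | B i l = c}.Finite := by
    intro l hl c
    refine Set.Subsingleton.finite fun i hi j hj => ?_
    by_contra hne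
    rcases lt_or_gt_of_ne hne with h | h
    · exact hl i j h (hi.trans hj.symm)
    · exact hl j i h (hj.trans hi.symm)
  have hfinA : ∀ (k : Fin n), (∀ i j, i < j → A i k ≠ A j k) → ∀ c : K, {i | A i k = c}.Finite := by
    intro l hl c
    refine Set.Subsingleton.finite fun i hi j hj => ?_
    by_contra hne
    rcases lt_or_gt_of_ne hne with h | h
    · exact hl i j h (hi.trans hj.symm)
    · exact hl j i h (hj.trans hi.symm)
  let bad0 : Set ℕ := {i | ∃ (k : Fin n) (l : Fin m),
    ((∀ i j, i < j → B i l ≠ B j l) ∧ B i l = A 0 k) ∨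
      ((∀ i j, i < j → A i k ≠ A j k) ∧ A i k = B 0 l)}
  have hbad0 : bad0.Finite := by
    have : bad0 ⊆ ⋃ k : Fin n, ⋃ l : Fin m, ({i | (∀ i j, i < j → B i l ≠ B j l) ∧ B i l = A 0 k} ∪
        {i | (∀ i j, i < j → A i k ≠ A j k) ∧ A i k = B 0 l}) := by
      rintro i ⟨k, l, h⟩
      exact Set.mem_iUnion.2 ⟨k, Set.mem_iUnion.2 ⟨l, h⟩⟩
    refine (Set.finite_iUnion fun k => Set.finite_iUnion fun l => ?_).subset this
    refine Set.Finite.union ?_ ?_
    · by_cases h : ∀ i j, i < j → B i l ≠ B j l
      · exact (hfinB l h (A 0 k)).subset fun i hi => hi.2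
      · exact Set.finite_empty.subset fun i hi => (h hi.1).elim
    · by_cases h : ∀ i j, i < j → A i k ≠ A j k
      · exact (hfinA k h (B 0 l)).subset fun i hi => hi.2
      · exact Set.finite_empty.subset fun i hi => (h hi.1).elim
  obtain ⟨i, hi⟩ := hbad0.exists_notMem
  let bad1 : Set ℕ := {j | ∃ (k : Fin n) (l : Fin m),
    ((∀ i j, i < j → B i l ≠ B j l) ∧ B j l = A i k) ∨
      ((∀ i j, i < j → A i k ≠ A j k) ∧ A j k = B i l)}
  have hbad1 : bad1.Finite := by
    have : bad1 ⊆ ⋃ k : Fin n, ⋃ l : Fin m, ({j | (∀ i j, i < j → B i l ≠ B j l) ∧ B j l = A i k} ∪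
        {j | (∀ i j, i < j → A i k ≠ A j k) ∧ A j k = B i l}) := by
      rintro i ⟨k, l, h⟩
      exact Set.mem_iUnion.2 ⟨k, Set.mem_iUnion.2 ⟨l, h⟩⟩
    refine (Set.finite_iUnion fun k => Set.finite_iUnion fun l => ?_).subset this
    refine Set.Finite.union ?_ ?_
    · by_cases h : ∀ i j, i < j → B i l ≠ B j l
      · exact (hfinB l h (A i k)).subset fun i hi => hi.2
      · exact Set.finite_empty.subset fun i hi => (h hi.1).elim
    · by_cases h : ∀ i j, i < j → A i k ≠ A j k
      · exact (hfinA k h (B i l)).subset fun i hi => hi.2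
      · exact Set.finite_empty.subset fun i hi => (h hi.1).elim
  obtain ⟨j, hj⟩ := ((hbad0.union hbad1).union (Set.finite_le_nat i)).exists_notMem
  have hj0 : j ∉ bad0 := fun h => hj (Or.inl (Or.inl h))
  have hj1 : j ∉ bad1 := fun h => hj (Or.inl (Or.inr h))
  have hij : i < j := by
    by_contra h
    exact hj (Or.inr (not_lt.1 h))
  -- constancy
  have constA : ∀ k, (∀ i j, i < j → A i k = A j k) → ∀ i, A i k = A 0 k := by
    intro k h i
    rcases Nat.eq_zero_or_pos i with rfl | h0
    · rfl
    · exact (h 0 i h0).symm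
  have constB : ∀ k, (∀ i j, i < j → B i k = B j k) → ∀ i, B i k = B 0 k := by
    intro k h i
    rcases Nat.eq_zero_or_pos i with rfl | h0
    · rfl
    · exact (h 0 i h0).symm
  -- the pattern of equalities
  have hcross : ∀ k l, A i k = B j l ↔ A j k = B i l := by
    intro k l
    rcases hA k with hAk | hAk <;> rcases hB l with hBl | hBl
    · rw [constA k hAk i, constA k hAk j, constB l hBl i, constB l hBl j]
    · rw [constA k hAk i, constA k hAk j]
      exact iff_of_false (fun h => hj0 ⟨k, l, Or.inl ⟨hBl, h.symm⟩⟩)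
        (fun h => hi ⟨k, l, Or.inl ⟨hBl, h.symm⟩⟩)
    · rw [constB l hBl i, constB l hBl j]
      exact iff_of_false (fun h => hi ⟨k, l, Or.inr ⟨hAk, h⟩⟩)
        (fun h => hj0 ⟨k, l, Or.inr ⟨hAk, h⟩⟩)
    · exact iff_of_false (fun h => hj1 ⟨k, l, Or.inl ⟨hBl, h.symm⟩⟩)
        (fun h => hj1 ⟨k, l, Or.inr ⟨hAk, h⟩⟩)
  have hpa : ∀ k l, A i k = A i l ↔ A j k = A j l := by
    intro k l
    have h := congrFun (congrFun (hcol i j).2.1 k) l
    rw [decide_eq_decide] at h
    exact h
  have hpb : ∀ k l, B i k = B i l ↔ B j k = B j l := by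
    intro k l
    have h := congrFun (congrFun (hcol i j).2.2 k) l
    rw [decide_eq_decide] at h
    exact h
  have hqa : ∀ k, fl (A i k) = fl (A j k) := fun k => congrFun (hcol i j).1.1 k
  have hqb : ∀ k, fl (B i k) = fl (B j k) := fun k => congrFun (hcol i j).1.2 k
  obtain ⟨σ, hσ1, hσ2⟩ := exists_equiv (prd K) (δ := 1 / q) (by positivity)
    (Sum.elim (A i) (B j)) (Sum.elim (A j) (B i)) (by
      rintro (k | k) (l | l)
      · exact hpa k l
      · exact hcross k l
      · rw [eq_comm, eq_comm (a := (Sum.elim (A j) (B i)) (Sum.inr k))]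
        exact hcross l k
      · exact (hpb k l).symm) (by
      rintro (k | k)
      · exact hfl _ _ (hqa k).symm
      · exact hfl _ _ (hqb k)) Finset.univ
  have hsmall : (2 ^ (Finset.univ : Finset (Fin n ⊕ Fin m)).card - 1 : ℝ) * (1 / q) ≤ δ := by
    have h1 : (Finset.univ : Finset (Fin n ⊕ Fin m)).card = n + m := by
      rw [Finset.card_univ, Fintype.card_sum, Fintype.card_fin, Fintype.card_fin]
    rw [h1]
    have h2 : 2 ^ (n + m) < (q : ℝ) * δ := by
      rwa [div_lt_iff₀ hδ] at hq
    have h3 : (2 ^ (n + m) - 1 : ℝ) * (1 / q) ≤ 2 ^ (n + m) * (1 / q) :=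
      mul_le_mul_of_nonneg_right (by linarith) (by positivity)
    refine h3.trans ?_
    rw [mul_one_div, div_le_iff₀ hq0]
    linarith
  have h1 := H K hK σ (fun x => (hσ2 x).trans hsmall)
    (fun z : ULift (Fin n ⊕ Fin m) => Sum.elim (A i) (B j) z.down)
  have h2 : (σ ∘ fun z : ULift.{u} (Fin n ⊕ Fin m) => Sum.elim (A i) (B j) z.down) =
      fun z => Sum.elim (A j) (B i) z.down :=
    funext fun z => hσ1 z.down (Finset.mem_univ _)
  rw [h2, abs_sub_comm] at h1
  have h3 := hab _ _ (hmono hij)
  have h4 : ε ≤ ε / 2 := h3.trans h1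
  linarith

/-- The points of the example: the real numbers in `[0, 1]`. -/
structure Pt where
  /-- the real number -/
  val : ℝ
  nonneg : 0 ≤ val
  le_one : val ≤ 1

@[ext] lemma Pt.ext' {x y : Pt} (h : x.val = y.val) : x = y := by
  cases x
  cases y
  cases h
  rfl

open Classical in
/-- The discrete metric. -/
noncomputable instance : MetricSpace Pt where
  dist x y := if x = y then 0 else 1
  dist_self x := by simp
  dist_comm x y := by simp [eq_comm]
  dist_triangle x y z := by
    by_cases h1 : x = y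
    · subst h1
      simp
    · by_cases h2 : x = z
      · subst h2
        simp only [if_true]
        split_ifs <;> norm_num
      · simp only [h1, h2, if_false]
        split_ifs <;> norm_num
  eq_of_dist_eq_zero := by
    intro x y h
    by_contra hne
    have h' : (if x = y then (0 : ℝ) else 1) = 0 := h
    rw [if_neg hne] at h'
    exact one_ne_zero h'

lemma pt_dist_ne {x y : Pt} (h : x ≠ y) : dist x y = 1 := by
  classical
  exact if_neg h

instance : CompleteSpace Pt := by
  refine Metric.complete_of_cauchySeq_tendsto fun u hu => ?_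
  rw [Metric.cauchySeq_iff'] at hu
  obtain ⟨N, hN⟩ := hu 1 one_pos
  refine ⟨u N, tendsto_const_nhds.congr' ?_⟩
  filter_upwards [eventually_ge_atTop N] with n hn
  by_contra h
  have h1 := hN n hn
  rw [pt_dist_ne (Ne.symm h)] at h1
  exact lt_irrefl _ h1

instance : Nonempty Pt := ⟨⟨0, le_refl _, zero_le_one⟩⟩

/-- The example: `[0, 1]` with the discrete metric and the identity as its predicate. -/
noncomputable def exStr : Str.{0, 0} sig where
  carrier := Pt
  dist_le_one x y := by
    by_cases h : x = y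
    · rw [h, dist_self]
      exact zero_le_one
    · rw [pt_dist_ne h]
  fn f := f.elim
  rel _ x := (x (0 : Fin 1)).val
  rel_nonneg _ x := (x (0 : Fin 1)).nonneg
  rel_le_one _ x := (x (0 : Fin 1)).le_one
  fn_unif f := f.elim
  rel_unif R ε hε x y hxy := by
    have h1 : x (0 : Fin 1) = y (0 : Fin 1) := by
      by_contra h
      have h2 := (dist_le_pi_dist x y (0 : Fin 1)).trans_lt hxy
      rw [pt_dist_ne h] at h2
      exact lt_irrefl _ h2
    rw [h1, sub_self, abs_zero]
    exact hε.le

/-- The complete theory of the example. -/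
def exTheory : Theory.{0, 0} sig := {φ | φ.eval exStr PEmpty.elim = 0}

lemma exStr_models : exStr.Models exTheory := fun _ h => h

lemma exStr_disc : Disc exStr := fun _ _ h => pt_dist_ne h

/-- The connective `min (r, 1 - r)`. -/
noncomputable def discC : C(Fin 1 → ℝ, ℝ) where
  toFun r := min (r 0) (1 - r 0)
  continuous_toFun := by fun_prop

/-- The sentence which says that the metric is discrete. -/
noncomputable def discF : Formula.{0, 0} sig PEmpty :=
  .sup (.sup (.conn discC fun _ => .dist (.var none) (.var (some none))))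

lemma discF_eval (K : Str.{0, 0} sig) : discF.eval K PEmpty.elim =
    ⨆ x : K, ⨆ y : K, min (dist y x) (1 - dist y x) := rfl

lemma disc_of_eval (K : Str.{0, 0} sig) (h : discF.eval K PEmpty.elim = 0) : Disc K := by
  intro x y hxy
  rw [discF_eval] at h
  have hle : ∀ x y : K, min (dist y x) (1 - dist y x) ≤ 1 := fun x y =>
    (min_le_left _ _).trans (K.dist_le_one _ _)
  have hb1 : ∀ x : K, BddAbove (Set.range fun y : K => min (dist y x) (1 - dist y x)) :=
    fun x => ⟨1, by rintro _ ⟨y, rfl⟩; exact hle x y⟩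
  have hb2 : BddAbove (Set.range fun x : K => ⨆ y : K, min (dist y x) (1 - dist y x)) :=
    ⟨1, by rintro _ ⟨x, rfl⟩; exact ciSup_le fun y => hle x y⟩
  have h1 : min (dist x y) (1 - dist x y) ≤ 0 := by
    rw [← h]
    exact (le_ciSup (hb1 y) x).trans (le_ciSup hb2 y)
  have h2 : 0 < dist x y := dist_pos.2 hxy
  have h3 : dist x y ≤ 1 := K.dist_le_one x y
  rcases min_le_iff.1 h1 with h4 | h4
  · linarith
  · linarith

lemma discF_mem : discF ∈ exTheory := by
  change discF.eval exStr PEmpty.elim = 0
  rw [discF_eval]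
  have h : ∀ x y : exStr, min (dist y x) (1 - dist y x) = 0 := by
    intro x y
    by_cases h : y = x
    · rw [h, dist_self]
      norm_num
    · have h1 : dist y x = 1 := pt_dist_ne h
      rw [h1]
      norm_num
  simp only [h, ciSup_const]

/-- The theory of the example is stable. -/
theorem exTheory_stable : Stable exTheory := fun K hK n m φ =>
  disc_stable K (disc_of_eval K (hK _ discF_mem)) n m φ

/-- A point of the example as a tuple of length one. -/
def pt1 (r : ℝ) (h0 : 0 ≤ r) (h1 : r ≤ 1) : Fin 1 → exStr := fun _ => (⟨r, h0, h1⟩ : Pt)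

/-- The values of a formula with one free variable and without parameters at close points are
close. -/
lemma val_close (φ : Formula sig (Fin 1 ⊕ (∅ : Set exStr))) {ε : ℝ} (hε : 0 < ε) :
    ∃ δ : ℝ, 0 < δ ∧ ∀ x y : Fin 1 → exStr, |prd exStr (x 0) - prd exStr (y 0)| ≤ δ →
      |valA φ x - valA φ y| ≤ ε := by
  classical
  obtain ⟨δ, hδ, H⟩ := approx_aut φ ε hε
  refine ⟨δ, hδ, fun x y hxy => ?_⟩
  have h1 := H exStr exStr_disc (Equiv.swap (x 0) (y 0)) (by
    intro z
    by_cases hz1 : z = x 0
    · rw [hz1, Equiv.swap_apply_left, abs_sub_comm]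
      exact hxy
    · by_cases hz2 : z = y 0
      · rw [hz2, Equiv.swap_apply_right]
        exact hxy
      · rw [Equiv.swap_apply_of_ne_of_ne hz1 hz2, sub_self, abs_zero]
        exact hδ.le) (Sum.elim y Subtype.val)
  have h2 : ((Equiv.swap (x 0) (y 0)) ∘ Sum.elim y Subtype.val :
      Fin 1 ⊕ (∅ : Set exStr) → exStr) = Sum.elim x Subtype.val := by
    funext s
    rcases s with s | s
    · have : s = 0 := Subsingleton.elim _ _
      subst this
      simp
    · exact s.2.elim
  rw [h2] at h1
  exact h1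

/-- The only subsets of the example which are d-definable over `∅` are the empty set and the whole
universe. -/
theorem trivial_ddefinable (D : Set (Fin 1 → exStr)) (hD : DDefinable exStr ∅ 1 D) :
    D = ∅ ∨ D = Set.univ := by
  classical
  by_contra hcon
  push Not at hcon
  obtain ⟨hne, hnu⟩ := hcon
  have hne' : D.Nonempty := hne
  obtain ⟨φ, hφ⟩ := hD.2 (1 / 4) (by norm_num)
  obtain ⟨δ, hδ, H⟩ := val_close φ (ε := 1 / 4) (by norm_num)
  -- the distance from `D` is `0` or `1`
  have hin : ∀ x ∈ D, setDist x D = 0 := fun x hx => by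
    rw [setDist, if_pos hne']
    exact Metric.infDist_zero_of_mem hx
  have hout : ∀ x, x ∉ D → setDist x D = 1 := fun x hx => by
    rw [setDist, if_pos hne']
    refine le_antisymm ?_ ?_
    · obtain ⟨y, hy⟩ := hne'
      refine (Metric.infDist_le_dist_of_mem hy).trans ?_
      rw [dist_pi_le_iff zero_le_one]
      exact fun i => exStr.dist_le_one _ _
    · rw [Metric.le_infDist hne']
      intro y hy
      have hxy : x ≠ y := fun h => hx (h ▸ hy)
      have h0 : x 0 ≠ y 0 := fun h => hxy (funext fun i => by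
        rw [Subsingleton.elim i 0]
        exact h)
      have h1 : dist (x 0) (y 0) = 1 := pt_dist_ne h0
      rw [← h1]
      exact dist_le_pi_dist x y 0
  -- membership in `D` does not change along short steps
  have hstep : ∀ x y : Fin 1 → exStr, |prd exStr (x 0) - prd exStr (y 0)| ≤ δ → x ∈ D → y ∈ D := by
    intro x y hxy hx
    by_contra hy
    have h1 : |setDist x D - valA φ x| ≤ 1 / 4 := hφ x
    have h2 : |setDist y D - valA φ y| ≤ 1 / 4 := hφ y
    have h3 := H x y hxy
    rw [hin x hx] at h1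
    rw [hout y hy] at h2
    rw [abs_le] at h1 h2 h3
    linarith [h1.1, h2.2, h3.1]
  -- so it is the same for all points
  obtain ⟨q, hq⟩ := exists_nat_gt (1 / δ)
  have hq0 : 0 < (q : ℝ) := lt_trans (by positivity) hq
  have hchain : ∀ (x y : Fin 1 → exStr), x ∈ D → y ∈ D := by
    intro x y hx
    let z : ℕ → Fin 1 → exStr := fun k _ =>
      (⟨(1 - min 1 ((k : ℝ) / q)) * (x 0 : Pt).val + min 1 ((k : ℝ) / q) * (y 0 : Pt).val, by
        have h1 := (x 0 : Pt).nonneg
        have h2 := (y 0 : Pt).nonneg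
        have h3 : min 1 ((k : ℝ) / q) ≤ 1 := min_le_left _ _
        have h4 : 0 ≤ min 1 ((k : ℝ) / q) := le_min zero_le_one (by positivity)
        have h5 := mul_nonneg (sub_nonneg.2 h3) h1
        have h6 := mul_nonneg h4 h2
        linarith, by
        have h1 := (x 0 : Pt).le_one
        have h2 := (y 0 : Pt).le_one
        have h3 : min 1 ((k : ℝ) / q) ≤ 1 := min_le_left _ _
        have h4 : 0 ≤ min 1 ((k : ℝ) / q) := le_min zero_le_one (by positivity)
        nlinarith⟩ : Pt)
    have hz : ∀ k, z k ∈ D := by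
      intro k
      induction k with
      | zero =>
        have : z 0 = x := by
          funext i
          rw [Subsingleton.elim i 0]
          refine Pt.ext' ?_
          change (1 - min 1 (((0 : ℕ) : ℝ) / q)) * (x 0 : Pt).val +
            min 1 (((0 : ℕ) : ℝ) / q) * (y 0 : Pt).val = (x 0 : Pt).val
          rw [Nat.cast_zero, zero_div, min_eq_right zero_le_one]
          ring
        rw [this]
        exact hx
      | succ k ih =>
        refine hstep _ _ ?_ ih
        change |((1 - min 1 ((k : ℝ) / q)) * (x 0 : Pt).val + min 1 ((k : ℝ) / q) * (y 0 : Pt).val) -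
          ((1 - min 1 (((k + 1 : ℕ) : ℝ) / q)) * (x 0 : Pt).val +
            min 1 (((k + 1 : ℕ) : ℝ) / q) * (y 0 : Pt).val)| ≤ δ
        have h1 : |min 1 ((k : ℝ) / q) - min 1 (((k + 1 : ℕ) : ℝ) / q)| ≤ 1 / q := by
          have := abs_min_sub_min_le_max 1 ((k : ℝ) / q) 1 (((k + 1 : ℕ) : ℝ) / q)
          refine this.trans ?_
          rw [sub_self, abs_zero]
          refine max_le (by positivity) ?_
          push_cast
          rw [show (k : ℝ) / q - (k + 1) / q = -(1 / q) by ring, abs_neg, abs_of_pos (by positivity)]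
        have h2 : |(x 0 : Pt).val - (y 0 : Pt).val| ≤ 1 := by
          rw [abs_le]
          have e1 := (x 0 : Pt).nonneg
          have e2 := (x 0 : Pt).le_one
          have e3 := (y 0 : Pt).nonneg
          have e4 := (y 0 : Pt).le_one
          constructor <;> linarith
        have h3 : ((1 - min 1 ((k : ℝ) / q)) * (x 0 : Pt).val +
            min 1 ((k : ℝ) / q) * (y 0 : Pt).val) -
            ((1 - min 1 (((k + 1 : ℕ) : ℝ) / q)) * (x 0 : Pt).val +
            min 1 (((k + 1 : ℕ) : ℝ) / q) * (y 0 : Pt).val) =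
            -((min 1 ((k : ℝ) / q) - min 1 (((k + 1 : ℕ) : ℝ) / q)) *
              ((x 0 : Pt).val - (y 0 : Pt).val)) := by ring
        rw [h3, abs_neg, abs_mul]
        have h4 : |min 1 ((k : ℝ) / q) - min 1 (((k + 1 : ℕ) : ℝ) / q)| *
            |(x 0 : Pt).val - (y 0 : Pt).val| ≤ 1 / q * 1 :=
          mul_le_mul h1 h2 (abs_nonneg _) (by positivity)
        refine h4.trans ?_
        rw [mul_one, div_le_iff₀ hq0]
        rw [div_lt_iff₀ hδ] at hq
        linarith
    have hlast : z q = y := by
      funext i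
      rw [Subsingleton.elim i 0]
      refine Pt.ext' ?_
      change (1 - min 1 ((q : ℝ) / q)) * (x 0 : Pt).val + min 1 ((q : ℝ) / q) * (y 0 : Pt).val =
        (y 0 : Pt).val
      rw [div_self hq0.ne', min_self]
      ring
    rw [← hlast]
    exact hz q
  obtain ⟨x, hx⟩ := hne'
  exact hnu (Set.eq_univ_of_forall fun y => hchain x y hx)

/-- The type over `∅` of the point `1/2`. -/
noncomputable def halfType : CType exStr ∅ 1 where
  val φ := valA φ (pt1 (1 / 2) (by norm_num) (by norm_num))
  approx F ε hε := ⟨pt1 (1 / 2) (by norm_num) (by norm_num), fun φ _ => by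
    rw [sub_self, abs_zero]
    exact hε⟩

lemma halfType_real : halfType.real ≠ Set.univ := by
  intro h
  have h1 : pt1 0 le_rfl zero_le_one ∈ halfType.real := by
    rw [h]
    trivial
  have h2 := h1 (.rel () fun _ => .var (Sum.inl 0))
  have h3 : (0 : ℝ) = 1 / 2 := h2
  norm_num at h3

lemma halfType_real_nonempty : halfType.real.Nonempty :=
  ⟨pt1 (1 / 2) (by norm_num) (by norm_num), fun _ => rfl⟩

/-- The theory of the example does not have enough d-definable sets. -/
theorem not_enough : ¬ EnoughDDefinable exTheory := by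
  intro h
  obtain ⟨𝒟, h1, h2⟩ := h exStr exStr_models ∅ 1 halfType
  refine halfType_real ?_
  rw [h2, Set.sInter_eq_univ]
  intro D hD
  rcases trivial_ddefinable D (h1 D hD) with h3 | h3
  · exfalso
    have h4 : halfType.real ⊆ D := by
      rw [h2]
      exact Set.sInter_subset_of_mem hD
    rw [h3] at h4
    obtain ⟨x, hx⟩ := halfType_real_nonempty
    exact h4 hx
  · exact h3

end Pool.Agent.K1H65.CL
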